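import Pool.Agent.H708R2.EulerSign.Jac

/-!
# Classical solutions on `𝕋³` and uniqueness
-/

open MeasureTheory Set
open scoped ENNReal NNReal Topology Pointwise

namespace Pool.Agent.H708R2.EulerSign

lemma vec_eq_sum (y : V) : y = ∑ j, y j • (Pi.single j (1 : ℝ) : V) := by
  ext k
  simp [Finset.sum_apply, Pi.single_apply]

lemma sum_mul_clm (L : V →L[ℝ] V) (y : V) (i : Fin 3) :
    ∑ j, y j * L (Pi.single j 1) i = L y i := by
  conv_rhs => rw [vec_eq_sum y, map_sum]
  simp [Finset.sum_apply]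

lemma sum_mul_clm' (L : V →L[ℝ] ℝ) (y : V) :
    ∑ j, y j * L (Pi.single j 1) = L y := by
  conv_rhs => rw [vec_eq_sum y, map_sum]
  simp

lemma divergence_eq_sum (g : V → V) (x : V) :
    divergence g x = ∑ i, fderiv ℝ g x (Pi.single i 1) i := rfl

lemma divergence_smul {φ : V → ℝ} {g : V → V} {x : V} (hφ : DifferentiableAt ℝ φ x)
    (hg : DifferentiableAt ℝ g x) :
    divergence (fun y => φ y • g y) x = φ x * divergence g x + fderiv ℝ φ x (g x) := by
  have h := hφ.hasFDerivAt.smul hg.hasFDerivAt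
  have h' : fderiv ℝ (fun y => φ y • g y) x
      = φ x • fderiv ℝ g x + (fderiv ℝ φ x).smulRight (g x) := h.fderiv
  rw [divergence_eq_sum, divergence_eq_sum, h', ← sum_mul_clm' (fderiv ℝ φ x) (g x),
    Finset.mul_sum, ← Finset.sum_add_distrib]
  refine Finset.sum_congr rfl fun i _ => ?_
  simp
  ring

lemma contDiff_slice {E : Type*} [NormedAddCommGroup E] [NormedSpace ℝ E] {I : Set ℝ}
    {f : ℝ → V → E} (h : ContDiffOn ℝ 1 (fun z : ℝ × V => f z.1 z.2) (I ×ˢ univ)) {t : ℝ}
    (ht : t ∈ I) : ContDiff ℝ 1 (f t) := by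
  rw [← contDiffOn_univ]
  exact h.comp (contDiff_const.prodMk contDiff_id).contDiffOn (fun x _ => ⟨ht, mem_univ _⟩)

/-- The square of the Euclidean norm. -/
def sq3 (y : V) : ℝ := ∑ i, y i ^ 2

lemma sq3_nonneg (y : V) : 0 ≤ sq3 y := Finset.sum_nonneg fun i _ => sq_nonneg _

lemma sq3_eq_zero {y : V} (h : sq3 y = 0) : y = 0 := by
  ext i
  have := (Finset.sum_eq_zero_iff_of_nonneg (fun i _ => sq_nonneg (y i))).1 h i (Finset.mem_univ i)
  simpa using this

lemma sq3_contDiff {n : WithTop ℕ∞} : ContDiff ℝ n sq3 := by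
  unfold sq3
  exact ContDiff.sum fun i _ => (contDiff_apply ℝ ℝ i).pow 2

lemma hasFDerivAt_sq3 (y : V) :
    HasFDerivAt sq3 (∑ i, (2 * y i) • (ContinuousLinearMap.proj i : V →L[ℝ] ℝ)) y := by
  unfold sq3
  refine HasFDerivAt.fun_sum fun i _ => ?_
  have h := (ContinuousLinearMap.proj (R := ℝ) (φ := fun _ : Fin 3 => ℝ) i).hasFDerivAt (x := y)
  have h2 := h.pow 2
  refine h2.congr_fderiv ?_
  simp

/-- Pointwise bound of the quadratic form. -/
lemma quad_bound {L : V →L[ℝ] V} {K : ℝ} (hK : ∀ i j, |L (Pi.single j 1) i| ≤ K) (y : V) :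
    |∑ i, 2 * y i * L y i| ≤ 6 * K * sq3 y := by
  have hK0 : 0 ≤ K := (abs_nonneg _).trans (hK 0 0)
  have h1 : |∑ i, 2 * y i * L y i| ≤ ∑ i, 2 * |y i| * (∑ j, |y j| * K) := by
    refine (Finset.abs_sum_le_sum_abs _ _).trans (Finset.sum_le_sum fun i _ => ?_)
    rw [abs_mul, abs_mul, abs_two]
    gcongr
    rw [← sum_mul_clm L y i]
    refine (Finset.abs_sum_le_sum_abs _ _).trans (Finset.sum_le_sum fun j _ => ?_)
    rw [abs_mul]
    gcongr
    exact hK i j
  refine h1.trans ?_
  simp only [Fin.sum_univ_three, sq3]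
  have e0 : (y 0) ^ 2 = |y 0| ^ 2 := (sq_abs _).symm
  have e1 : (y 1) ^ 2 = |y 1| ^ 2 := (sq_abs _).symm
  have e2 : (y 2) ^ 2 = |y 2| ^ 2 := (sq_abs _).symm
  rw [e0, e1, e2]
  have : 0 ≤ 2 * K * ((|y 0| - |y 1|) ^ 2 + (|y 0| - |y 2|) ^ 2 + (|y 1| - |y 2|) ^ 2) := by
    positivity
  nlinarith

section energy

variable {T : ℝ} {w : ℝ → V → V} {q : ℝ → V → ℝ} {u : ℝ → V → V}

/-- The energy of the difference. -/
noncomputable def en (w u : ℝ → V → V) (t : ℝ) : ℝ := ∫ x in Dom, sq3 (w t x - u t x)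

lemma en_nonneg (t : ℝ) : 0 ≤ en w u t := integral_nonneg fun _ => sq3_nonneg _

lemma contDiffOn_S (hw : IsClassicalSolution (Ico 0 T) w q)
    (hu : ContDiff ℝ 1 (fun z : ℝ × V => u z.1 z.2)) :
    ContDiffOn ℝ 1 (fun z : ℝ × V => sq3 (w z.1 z.2 - u z.1 z.2)) (Ico 0 T ×ˢ univ) :=
  sq3_contDiff.comp_contDiffOn (hw.contDiffOn_u.sub hu.contDiffOn)

lemma en_continuousOn (hw : IsClassicalSolution (Ico 0 T) w q)
    (hu : ContDiff ℝ 1 (fun z : ℝ × V => u z.1 z.2)) : ContinuousOn (en w u) (Ico 0 T) := by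
  intro t ht
  have hS := (contDiffOn_S hw hu).continuousOn
  obtain ⟨b, hb1, hb2⟩ := exists_between ht.2
  have hK : IsCompact (Icc 0 b ×ˢ closure Dom) := isCompact_Icc.prod dom_bdd.isCompact_closure
  have hsub : Icc 0 b ×ˢ closure Dom ⊆ Ico 0 T ×ˢ (univ : Set V) :=
    prod_mono (fun s hs => ⟨hs.1, hs.2.trans_lt hb2⟩) (subset_univ _)
  obtain ⟨C, hC⟩ := hK.exists_bound_of_continuousOn (hS.mono hsub)
  have hev : ∀ᶠ s in 𝓝[Ico 0 T] t, s ∈ Icc 0 b := by
    have h1 : ∀ᶠ s in 𝓝[Ico 0 T] t, s < b := nhdsWithin_le_nhds (Iio_mem_nhds hb1)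
    filter_upwards [h1, self_mem_nhdsWithin] with s hs1 hs2
    exact ⟨hs2.1, hs1.le⟩
  refine continuousWithinAt_of_dominated (bound := fun _ => C) ?_ ?_ ?_ ?_
  · filter_upwards [hev] with s hs
    have : ContDiff ℝ 1 (fun x => sq3 (w s x - u s x)) :=
      contDiff_slice (f := fun s x => sq3 (w s x - u s x)) (contDiffOn_S hw hu)
        ⟨hs.1, hs.2.trans_lt hb2⟩
    exact this.continuous.aestronglyMeasurable
  · filter_upwards [hev] with s hs
    refine (ae_restrict_iff' dom_meas).2 (Filter.Eventually.of_forall fun x hx => ?_)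
    exact hC (s, x) ⟨hs, subset_closure hx⟩
  · exact integrableOn_const dom_lt_top.ne
  · refine Filter.Eventually.of_forall fun x => ?_
    have h1 : ContinuousWithinAt (fun z : ℝ × V => sq3 (w z.1 z.2 - u z.1 z.2))
        (Ico 0 T ×ˢ univ) (t, x) := hS (t, x) ⟨ht, mem_univ _⟩
    exact h1.comp (t := Ico 0 T ×ˢ univ) (f := fun s : ℝ => ((s, x) : ℝ × V))
      (by fun_prop) (fun s hs => ⟨hs, mem_univ _⟩)

/-- The time derivative of `|w - u|²`. -/
noncomputable def dS (w u : ℝ → V → V) (t : ℝ) (x : V) : ℝ :=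
  fderiv ℝ (fun z : ℝ × V => sq3 (w z.1 z.2 - u z.1 z.2)) (t, x) (1, 0)

lemma hasDerivAt_S (hw : IsClassicalSolution (Ico 0 T) w q)
    (hu : ContDiff ℝ 1 (fun z : ℝ × V => u z.1 z.2)) {t : ℝ} (ht : t ∈ Ioo 0 T) (x : V) :
    HasDerivAt (fun s => sq3 (w s x - u s x)) (dS w u t x) t := by
  have hmem : Ico 0 T ×ˢ (univ : Set V) ∈ 𝓝 (t, x) :=
    prod_mem_nhds (Ico_mem_nhds ht.1 ht.2) Filter.univ_mem
  have h1 : DifferentiableAt ℝ (fun z : ℝ × V => sq3 (w z.1 z.2 - u z.1 z.2)) (t, x) :=
    ((contDiffOn_S hw hu).contDiffAt hmem).differentiableAt one_ne_zero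
  have h2 : HasDerivAt (fun s : ℝ => ((s, x) : ℝ × V)) (1, 0) t :=
    (hasDerivAt_id t).prodMk (hasDerivAt_const t x)
  exact h1.hasFDerivAt.comp_hasDerivAt t h2

lemma en_hasDerivAt (hw : IsClassicalSolution (Ico 0 T) w q)
    (hu : ContDiff ℝ 1 (fun z : ℝ × V => u z.1 z.2)) {t : ℝ} (ht : t ∈ Ioo 0 T) :
    HasDerivAt (en w u) (∫ x in Dom, dS w u t x) t := by
  obtain ⟨a, ha1, ha2⟩ := exists_between ht.1
  obtain ⟨b, hb1, hb2⟩ := exists_between ht.2
  have hO : IsOpen (Ioo 0 T ×ˢ (univ : Set V)) := isOpen_Ioo.prod isOpen_univ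
  have hS1 : ContDiffOn ℝ 1 (fun z : ℝ × V => sq3 (w z.1 z.2 - u z.1 z.2)) (Ioo 0 T ×ˢ univ) :=
    (contDiffOn_S hw hu).mono (prod_mono Ioo_subset_Ico_self subset_rfl)
  have hd : ContinuousOn (fun z : ℝ × V =>
      fderiv ℝ (fun z : ℝ × V => sq3 (w z.1 z.2 - u z.1 z.2)) z (1, 0)) (Ioo 0 T ×ˢ univ) :=
    (hS1.continuousOn_fderiv_of_isOpen hO le_rfl).clm_apply continuousOn_const
  have hK : IsCompact (Icc a b ×ˢ closure Dom) := isCompact_Icc.prod dom_bdd.isCompact_closure
  have hsub : Icc a b ×ˢ closure Dom ⊆ Ioo 0 T ×ˢ (univ : Set V) :=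
    prod_mono (fun s hs => ⟨ha1.trans_le hs.1, hs.2.trans_lt hb2⟩) (subset_univ _)
  obtain ⟨C, hC⟩ := hK.exists_bound_of_continuousOn (hd.mono hsub)
  have hslice : ∀ s ∈ Ioo 0 T, Continuous (fun x => sq3 (w s x - u s x)) := fun s hs =>
    (contDiff_slice (f := fun s x => sq3 (w s x - u s x)) (contDiffOn_S hw hu)
        ⟨hs.1.le, hs.2⟩).continuous
  have hnh : Icc a b ∈ 𝓝 t := Icc_mem_nhds ha2 hb1
  refine (hasDerivAt_integral_of_dominated_loc_of_deriv_le (s := Icc a b)
    (F := fun s x => sq3 (w s x - u s x)) (F' := fun s x => dS w u s x)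
    (bound := fun _ => C) (μ := volume.restrict Dom) hnh ?_ ?_ ?_ ?_ ?_ ?_).2
  · filter_upwards [Ioo_mem_nhds ht.1 ht.2] with s hs
    exact (hslice s hs).aestronglyMeasurable
  · have hcl : IntegrableOn (fun x => sq3 (w t x - u t x)) (closure Dom) :=
      (hslice t ht).continuousOn.integrableOn_compact dom_bdd.isCompact_closure
    exact hcl.mono_set subset_closure
  · have : Continuous (fun x => dS w u t x) := by
      have h := hd.comp_continuous (f := fun x : V => ((t, x) : ℝ × V)) (by fun_prop)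
        (fun x => ⟨ht, mem_univ _⟩)
      exact h
    exact this.aestronglyMeasurable
  · refine (ae_restrict_iff' dom_meas).2 (Filter.Eventually.of_forall fun x hx s hs => ?_)
    exact hC (s, x) ⟨hs, subset_closure hx⟩
  · exact integrableOn_const dom_lt_top.ne
  · refine Filter.Eventually.of_forall fun x s hs => ?_
    exact hasDerivAt_S hw hu ⟨ha1.trans_le hs.1, hs.2.trans_lt hb2⟩ x

/-- The pointwise energy identity for the difference of a classical solution `(w, q)` and a
pressureless solution `u`. -/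
lemma dS_eq (hw : IsClassicalSolution (Ico 0 T) w q)
    (hu : ContDiff ℝ 1 (fun z : ℝ × V => u z.1 z.2))
    (hudiv : ∀ t x, divergence (u t) x = 0)
    (hueq : ∀ t x i, deriv (fun s => u s x i) t
        + ∑ j, u t x j * fderiv ℝ (u t) x (Pi.single j 1) i = 0) {t : ℝ} (ht : t ∈ Ioo 0 T)
    (x : V) :
    dS w u t x = -divergence (fun y => sq3 (w t y - u t y) • w t y) x
      - 2 * divergence (fun y => q t y • (w t y - u t y)) x
      - ∑ i, 2 * (w t x - u t x) i * fderiv ℝ (u t) x (w t x - u t x) i := by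
  have htI : t ∈ Ico 0 T := ⟨ht.1.le, ht.2⟩
  have hwt : ContDiff ℝ 1 (w t) := contDiff_slice hw.contDiffOn_u htI
  have hqt : ContDiff ℝ 1 (q t) := contDiff_slice hw.contDiffOn_p htI
  have hut : ContDiff ℝ 1 (u t) := hu.comp (contDiff_const.prodMk contDiff_id)
  have dw : DifferentiableAt ℝ (w t) x := hwt.differentiable one_ne_zero x
  have dq : DifferentiableAt ℝ (q t) x := hqt.differentiable one_ne_zero x
  have du : DifferentiableAt ℝ (u t) x := hut.differentiable one_ne_zero x
  have dW : DifferentiableAt ℝ (fun y => w t y - u t y) x := dw.sub du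
  have hmem : Ico 0 T ×ˢ (univ : Set V) ∈ 𝓝 (t, x) :=
    prod_mem_nhds (Ico_mem_nhds ht.1 ht.2) Filter.univ_mem
  -- time derivatives
  have hline : HasDerivAt (fun s : ℝ => ((s, x) : ℝ × V)) (1, 0) t :=
    (hasDerivAt_id t).prodMk (hasDerivAt_const t x)
  have hwtime : DifferentiableAt ℝ (fun s => w s x) t := by
    have h1 : DifferentiableAt ℝ (fun z : ℝ × V => w z.1 z.2) (t, x) :=
      (hw.contDiffOn_u.contDiffAt hmem).differentiableAt one_ne_zero
    exact (h1.hasFDerivAt.comp_hasDerivAt t hline).differentiableAt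
  have hutime : DifferentiableAt ℝ (fun s => u s x) t := by
    have h1 : DifferentiableAt ℝ (fun z : ℝ × V => u z.1 z.2) (t, x) :=
      hu.differentiable one_ne_zero (t, x)
    exact (h1.hasFDerivAt.comp_hasDerivAt t hline).differentiableAt
  have hwi : ∀ i, HasDerivAt (fun s => w s x i)
      (-(fderiv ℝ (w t) x (w t x) i) - fderiv ℝ (q t) x (Pi.single i 1)) t := by
    intro i
    have h1 : HasDerivAt (fun s => w s x i) (deriv (fun s => w s x i) t) t :=
      (hasDerivAt_pi.1 hwtime.hasDerivAt i).differentiableAt.hasDerivAt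
    have h2 := hw.momentum t htI x i
    rw [derivWithin_of_mem_nhds (Ico_mem_nhds ht.1 ht.2), sum_mul_clm] at h2
    have h3 : deriv (fun s => w s x i) t
        = -(fderiv ℝ (w t) x (w t x) i) - fderiv ℝ (q t) x (Pi.single i 1) := by linarith
    rwa [h3] at h1
  have hui : ∀ i, HasDerivAt (fun s => u s x i) (-(fderiv ℝ (u t) x (u t x) i)) t := by
    intro i
    have h1 : HasDerivAt (fun s => u s x i) (deriv (fun s => u s x i) t) t :=
      (hasDerivAt_pi.1 hutime.hasDerivAt i).differentiableAt.hasDerivAt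
    have h2 := hueq t x i
    rw [sum_mul_clm] at h2
    have h3 : deriv (fun s => u s x i) t = -(fderiv ℝ (u t) x (u t x) i) := by linarith
    rwa [h3] at h1
  have hSt : HasDerivAt (fun s => sq3 (w s x - u s x))
      (∑ i, 2 * (w t x - u t x) i * ((-(fderiv ℝ (w t) x (w t x) i)
        - fderiv ℝ (q t) x (Pi.single i 1)) - (-(fderiv ℝ (u t) x (u t x) i)))) t := by
    unfold sq3
    refine HasDerivAt.fun_sum fun i _ => ?_
    have h := ((hwi i).sub (hui i)).pow 2
    refine h.congr_deriv ?_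
    simp
  rw [(hasDerivAt_S hw hu ht x).unique hSt]
  -- space derivatives
  have hSd : HasFDerivAt (fun y => sq3 (w t y - u t y))
      ((∑ i, (2 * (w t x - u t x) i) • (ContinuousLinearMap.proj i : V →L[ℝ] ℝ)) ∘L
        (fderiv ℝ (w t) x - fderiv ℝ (u t) x)) x :=
    HasFDerivAt.comp (g := sq3) (f := fun y => w t y - u t y) x
      (hasFDerivAt_sq3 (w t x - u t x)) (dw.hasFDerivAt.sub du.hasFDerivAt)
  rw [divergence_smul hSd.differentiableAt dw, divergence_smul dq dW, hSd.fderiv,
    hw.div_free t htI]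
  have hWdiv : divergence (fun y => w t y - u t y) x = 0 := by
    have h1 : fderiv ℝ (fun y => w t y - u t y) x = fderiv ℝ (w t) x - fderiv ℝ (u t) x :=
      (dw.hasFDerivAt.sub du.hasFDerivAt).fderiv
    have h2 := hw.div_free t htI x
    have h3 := hudiv t x
    rw [divergence_eq_sum] at h2 h3 ⊢
    rw [h1]
    simp only [sub_apply, Pi.sub_apply, Finset.sum_sub_distrib, h2, h3,
      sub_zero]
  rw [hWdiv, ← sum_mul_clm' (fderiv ℝ (q t) x)]
  have hlin : ∀ i, fderiv ℝ (u t) x (w t x - u t x) i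
      = fderiv ℝ (u t) x (w t x) i - fderiv ℝ (u t) x (u t x) i := by
    intro i; rw [map_sub]; rfl
  simp only [hlin, ContinuousLinearMap.comp_apply, sum_apply,
    smul_apply, sub_apply, ContinuousLinearMap.proj_apply,
    Pi.sub_apply, smul_eq_mul, mul_zero, zero_add, Finset.mul_sum, ← Finset.sum_neg_distrib,
    ← Finset.sum_sub_distrib]
  refine Finset.sum_congr rfl fun i _ => ?_
  ring

/-- The derivative of the energy of the difference is controlled by the energy. -/
lemma en_deriv_le (hw : IsClassicalSolution (Ico 0 T) w q)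
    (hu : ContDiff ℝ 1 (fun z : ℝ × V => u z.1 z.2)) (hup : ∀ t, Periodic3 (u t))
    (hudiv : ∀ t x, divergence (u t) x = 0)
    (hueq : ∀ t x i, deriv (fun s => u s x i) t
        + ∑ j, u t x j * fderiv ℝ (u t) x (Pi.single j 1) i = 0) {K : ℝ}
    (hK : ∀ t ∈ Ico 0 T, ∀ x i j, |grad (u t) x i j| ≤ K) {t : ℝ} (ht : t ∈ Ioo 0 T) :
    |∫ x in Dom, dS w u t x| ≤ 6 * K * en w u t := by
  have htI : t ∈ Ico 0 T := ⟨ht.1.le, ht.2⟩
  have hwt : ContDiff ℝ 1 (w t) := contDiff_slice hw.contDiffOn_u htI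
  have hqt : ContDiff ℝ 1 (q t) := contDiff_slice hw.contDiffOn_p htI
  have hut : ContDiff ℝ 1 (u t) := hu.comp (contDiff_const.prodMk contDiff_id)
  have hW : ContDiff ℝ 1 (fun y => w t y - u t y) := hwt.sub hut
  have hWp : Periodic3 (fun y => w t y - u t y) := by
    intro i x
    simp only
    rw [hw.periodic_u t htI i x, hup t i x]
  have g1 : ContDiff ℝ 1 (fun y => sq3 (w t y - u t y) • w t y) :=
    (sq3_contDiff.comp hW).smul hwt
  have g1p : Periodic3 (fun y => sq3 (w t y - u t y) • w t y) := by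
    intro i x
    simp only
    rw [hw.periodic_u t htI i x, hup t i x]
  have g2 : ContDiff ℝ 1 (fun y => q t y • (w t y - u t y)) := hqt.smul hW
  have g2p : Periodic3 (fun y => q t y • (w t y - u t y)) := by
    intro i x
    simp only
    rw [hw.periodic_u t htI i x, hup t i x, hw.periodic_p t htI i x]
  set Rm : V → ℝ := fun x => ∑ i, 2 * (w t x - u t x) i * fderiv ℝ (u t) x (w t x - u t x) i
    with hRm
  have hRc : Continuous Rm := by
    have hf : Continuous (fun x => fderiv ℝ (u t) x (w t x - u t x)) :=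
      (hut.continuous_fderiv one_ne_zero).clm_apply hW.continuous
    refine continuous_finsetSum _ fun i _ => ?_
    exact (continuous_const.mul ((continuous_apply i).comp hW.continuous)).mul
      ((continuous_apply i).comp hf)
  have hRp : Periodic3 Rm := by
    intro i x
    simp only [hRm]
    rw [hw.periodic_u t htI i x, hup t i x, (hup t).fderiv i x]
  have i1 : IntegrableOn (fun x => divergence (fun y => sq3 (w t y - u t y) • w t y) x) Dom :=
    g1p.trace.integrableOn (continuous_grad g1).matrix_trace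
  have i2 : IntegrableOn (fun x => divergence (fun y => q t y • (w t y - u t y)) x) Dom :=
    g2p.trace.integrableOn (continuous_grad g2).matrix_trace
  have iR : IntegrableOn Rm Dom := hRp.integrableOn hRc
  have e1 : ∫ x in Dom, dS w u t x = -∫ x in Dom, Rm x := by
    have : ∀ x, dS w u t x = -divergence (fun y => sq3 (w t y - u t y) • w t y) x
        - 2 * divergence (fun y => q t y • (w t y - u t y)) x - Rm x :=
      fun x => dS_eq hw hu hudiv hueq ht x
    simp_rw [this]
    have a1 : ∫ x in Dom, (-divergence (fun y => sq3 (w t y - u t y) • w t y) x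
        - 2 * divergence (fun y => q t y • (w t y - u t y)) x - Rm x)
        = (∫ x in Dom, (-divergence (fun y => sq3 (w t y - u t y) • w t y) x
        - 2 * divergence (fun y => q t y • (w t y - u t y)) x)) - ∫ x in Dom, Rm x :=
      integral_sub (i1.neg.sub (i2.const_mul 2)) iR
    have a2 : ∫ x in Dom, (-divergence (fun y => sq3 (w t y - u t y) • w t y) x
        - 2 * divergence (fun y => q t y • (w t y - u t y)) x)
        = (∫ x in Dom, -divergence (fun y => sq3 (w t y - u t y) • w t y) x)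
        - ∫ x in Dom, 2 * divergence (fun y => q t y • (w t y - u t y)) x :=
      integral_sub i1.neg (i2.const_mul 2)
    rw [a1, a2, integral_neg, integral_const_mul, integral_divergence_eq_zero g1 g1p,
      integral_divergence_eq_zero g2 g2p]
    simp
  rw [e1, abs_neg]
  have hK0 : 0 ≤ K := (abs_nonneg _).trans (hK t htI 0 0 0)
  have hpt : ∀ x, ‖Rm x‖ ≤ 6 * K * sq3 (w t x - u t x) := fun x =>
    quad_bound (L := fderiv ℝ (u t) x) (fun i j => hK t htI x i j) (w t x - u t x)
  have iS : IntegrableOn (fun x => 6 * K * sq3 (w t x - u t x)) Dom := by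
    have : Periodic3 (fun x => sq3 (w t x - u t x)) := by
      intro i x
      simp only
      rw [hw.periodic_u t htI i x, hup t i x]
    exact (this.integrableOn ((sq3_contDiff (n := 1)).comp hW).continuous).const_mul (6 * K)
  have := norm_integral_le_of_norm_le iS (Filter.Eventually.of_forall hpt)
  rw [integral_const_mul] at this
  exact this

/-- Uniqueness: a classical solution on `[0, T)` which coincides at one time with a pressureless
solution with bounded gradient coincides with it at all times. -/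
theorem unique (hw : IsClassicalSolution (Ico 0 T) w q)
    (hu : ContDiff ℝ 1 (fun z : ℝ × V => u z.1 z.2)) (hup : ∀ t, Periodic3 (u t))
    (hudiv : ∀ t x, divergence (u t) x = 0)
    (hueq : ∀ t x i, deriv (fun s => u s x i) t
        + ∑ j, u t x j * fderiv ℝ (u t) x (Pi.single j 1) i = 0) {K : ℝ}
    (hK : ∀ t ∈ Ico 0 T, ∀ x i j, |grad (u t) x i j| ≤ K) {t₀ : ℝ} (ht₀ : t₀ ∈ Ico 0 T)
    (h0 : w t₀ = u t₀) : ∀ t ∈ Ico 0 T, w t = u t := by
  have hcont := en_continuousOn hw hu
  have hE0 : en w u t₀ = 0 := by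
    unfold en
    rw [h0]
    simp [sq3]
  have hEz : ∀ t ∈ Ico 0 T, en w u t = 0 := by
    intro t ht
    refine le_antisymm ?_ (en_nonneg t)
    rcases le_total t₀ t with htt | htt
    · -- forward in time
      have hanti : AntitoneOn (fun s => en w u s * Real.exp (-(6 * K) * s)) (Ico t₀ T) := by
        have hder : ∀ s ∈ interior (Ico t₀ T), HasDerivAt
            (fun s => en w u s * Real.exp (-(6 * K) * s))
            ((∫ x in Dom, dS w u s x) * Real.exp (-(6 * K) * s)
              + en w u s * (Real.exp (-(6 * K) * s) * (-(6 * K) * 1))) s := by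
          intro s hs
          rw [interior_Ico] at hs
          have hs' : s ∈ Ioo 0 T := ⟨ht₀.1.trans_lt hs.1, hs.2⟩
          exact (en_hasDerivAt hw hu hs').mul (((hasDerivAt_id s).const_mul (-(6 * K))).exp)
        refine antitoneOn_of_deriv_nonpos (convex_Ico _ _) ?_ ?_ ?_
        · exact (hcont.mono (Ico_subset_Ico_left ht₀.1)).mul (by fun_prop)
        · intro s hs
          exact (hder s hs).differentiableAt.differentiableWithinAt
        · intro s hs
          rw [(hder s hs).deriv]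
          rw [interior_Ico] at hs
          have hs' : s ∈ Ioo 0 T := ⟨ht₀.1.trans_lt hs.1, hs.2⟩
          have h1 := (abs_le.1 (en_deriv_le hw hu hup hudiv hueq hK hs')).2
          have h2 : 0 < Real.exp (-(6 * K) * s) := Real.exp_pos _
          nlinarith
      have h1 := hanti ⟨le_rfl, ht₀.2⟩ ⟨htt, ht.2⟩ htt
      simp only [hE0, zero_mul] at h1
      exact nonpos_of_mul_nonpos_left h1 (Real.exp_pos _)
    · -- backward in time
      have hmono : MonotoneOn (fun s => en w u s * Real.exp ((6 * K) * s)) (Icc 0 t₀) := by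
        have hder : ∀ s ∈ interior (Icc 0 t₀), HasDerivAt
            (fun s => en w u s * Real.exp ((6 * K) * s))
            ((∫ x in Dom, dS w u s x) * Real.exp ((6 * K) * s)
              + en w u s * (Real.exp ((6 * K) * s) * ((6 * K) * 1))) s := by
          intro s hs
          rw [interior_Icc] at hs
          have hs' : s ∈ Ioo 0 T := ⟨hs.1, hs.2.trans ht₀.2⟩
          exact (en_hasDerivAt hw hu hs').mul (((hasDerivAt_id s).const_mul (6 * K)).exp)
        refine monotoneOn_of_deriv_nonneg (convex_Icc _ _) ?_ ?_ ?_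
        · exact (hcont.mono (Icc_subset_Ico_right ht₀.2)).mul (by fun_prop)
        · intro s hs
          exact (hder s hs).differentiableAt.differentiableWithinAt
        · intro s hs
          rw [(hder s hs).deriv]
          rw [interior_Icc] at hs
          have hs' : s ∈ Ioo 0 T := ⟨hs.1, hs.2.trans ht₀.2⟩
          have h1 := (abs_le.1 (en_deriv_le hw hu hup hudiv hueq hK hs')).1
          have h2 : 0 < Real.exp ((6 * K) * s) := Real.exp_pos _
          nlinarith
      have h1 := hmono ⟨ht.1, htt⟩ ⟨ht₀.1, le_rfl⟩ htt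
      simp only [hE0, zero_mul] at h1
      exact nonpos_of_mul_nonpos_left h1 (Real.exp_pos _)
  intro t ht
  have hwt : ContDiff ℝ 1 (w t) := contDiff_slice hw.contDiffOn_u ht
  have hut : ContDiff ℝ 1 (u t) := hu.comp (contDiff_const.prodMk contDiff_id)
  have hW : ContDiff ℝ 1 (fun y => w t y - u t y) := hwt.sub hut
  have hper : Periodic3 (fun x => sq3 (w t x - u t x)) := by
    intro i x
    simp only
    rw [hw.periodic_u t ht i x, hup t i x]
  have hz := eq_zero_of_integral_eq_zero hper ((sq3_contDiff (n := 1)).comp hW).continuous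
    (fun x => sq3_nonneg _) (hEz t ht)
  ext1 x
  exact sub_eq_zero.1 (sq3_eq_zero (hz x))

end energy

end Pool.Agent.H708R2.EulerSign
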