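import Pool.Agent.H708R2.EulerSign.Jac

/-!
# The particle map of a pressureless flow

For a periodic `C¹` field `v` on `ℝ³` whose gradient is nilpotent at each point, the maps
`x ↦ x + t • v x` are diffeomorphisms for all real `t`.
-/

open MeasureTheory Set
open scoped ENNReal NNReal Topology Pointwise

namespace Pool.Agent.H708R2.EulerSign

/-- Cayley-Hamilton for a `3 × 3` matrix. -/
lemma cayley (A : Matrix (Fin 3) (Fin 3) ℝ) :
    A * A * A = A.trace • (A * A) - ((A.trace ^ 2 - (A * A).trace) / 2) • A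
      + A.det • (1 : Matrix (Fin 3) (Fin 3) ℝ) := by
  ext i j
  fin_cases i <;> fin_cases j <;>
  · simp [Matrix.det_fin_three, Matrix.trace, Matrix.mul_apply, Fin.sum_univ_three, Matrix.diag]
    ring

lemma cube_eq_zero_of_inv {v : V → V} {x : V} (h0 : divergence v x = 0) (hQ : invQ v x = 0)
    (hR : invR v x = 0) : grad v x * grad v x * grad v x = 0 := by
  have h1 : (grad v x).trace = 0 := h0
  have h2 : (grad v x * grad v x).trace = 0 := by
    unfold invQ at hQ; linarith
  have h3 : (grad v x).det = 0 := by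
    unfold invR at hR; linarith
  rw [cayley, h1, h2, h3]
  simp

lemma fderiv_cube {v : V → V} {x : V} (h : grad v x * grad v x * grad v x = 0) :
    fderiv ℝ v x * fderiv ℝ v x * fderiv ℝ v x = 0 := by
  have h1 : LinearMap.toMatrix' ((fderiv ℝ v x * fderiv ℝ v x * fderiv ℝ v x : V →L[ℝ] V) :
      V →ₗ[ℝ] V) = 0 := by
    rw [← toMatrix_fderiv] at h
    rw [← h]
    rw [← LinearMap.toMatrix'_mul, ← LinearMap.toMatrix'_mul]
    rfl
  have h2 : ((fderiv ℝ v x * fderiv ℝ v x * fderiv ℝ v x : V →L[ℝ] V) : V →ₗ[ℝ] V) = 0 := by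
    apply LinearMap.toMatrix'.injective
    rw [h1, map_zero]
  ext y i
  have := congrArg (fun L : V →ₗ[ℝ] V => L y i) h2
  simpa using this

/-- A bijective `C¹` map with invertible derivatives is a homeomorphism. -/
lemma exists_homeo {E : Type*} [NormedAddCommGroup E] [NormedSpace ℝ E] [CompleteSpace E]
    {f : E → E} {f' : E → E ≃L[ℝ] E} (hf : ∀ a, HasFDerivAt f (f' a : E →L[ℝ] E) a)
    (hc : ContDiff ℝ 1 f) (hb : Function.Bijective f) :
    ∃ h : E ≃ₜ E, ∀ x, h x = f x := by
  have hs : ∀ a, HasStrictFDerivAt f (f' a : E →L[ℝ] E) a := fun a =>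
    hc.contDiffAt.hasStrictFDerivAt' (hf a) one_ne_zero
  have ho : IsOpenMap f := isOpenMap_of_hasStrictFDerivAt_equiv hs
  exact ⟨(Equiv.ofBijective f hb).toHomeomorphOfContinuousOpen hc.continuous ho, fun x => rfl⟩

/-- The inverse of `id + t D` when `D³ = 0`. -/
noncomputable def iF (v : V → V) (t : ℝ) (x : V) : V →L[ℝ] V :=
  ContinuousLinearMap.id ℝ V - t • fderiv ℝ v x + t ^ 2 • (fderiv ℝ v x * fderiv ℝ v x)

lemma dF_mul_iF {v : V → V} {x : V} (h : fderiv ℝ v x * fderiv ℝ v x * fderiv ℝ v x = 0) (t : ℝ) :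
    dF v t x * iF v t x = 1 := by
  have e : dF v t x * iF v t x
      = 1 + t ^ 3 • (fderiv ℝ v x * fderiv ℝ v x * fderiv ℝ v x) := by
    unfold dF iF
    change (1 + t • fderiv ℝ v x) * (1 - t • fderiv ℝ v x + t ^ 2 • (fderiv ℝ v x * fderiv ℝ v x)) = _
    simp only [add_mul, mul_add, mul_sub, one_mul, mul_one, smul_mul_assoc, mul_smul_comm,
      mul_assoc]
    module
  rw [e, h, smul_zero, add_zero]

lemma iF_mul_dF {v : V → V} {x : V} (h : fderiv ℝ v x * fderiv ℝ v x * fderiv ℝ v x = 0) (t : ℝ) :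
    iF v t x * dF v t x = 1 := by
  have e : iF v t x * dF v t x
      = 1 + t ^ 3 • (fderiv ℝ v x * fderiv ℝ v x * fderiv ℝ v x) := by
    unfold dF iF
    change (1 - t • fderiv ℝ v x + t ^ 2 • (fderiv ℝ v x * fderiv ℝ v x)) * (1 + t • fderiv ℝ v x) = _
    simp only [add_mul, mul_add, sub_mul, one_mul, mul_one, smul_mul_assoc, mul_smul_comm,
      mul_assoc]
    module
  rw [e, h, smul_zero, add_zero]

/-- `D (id + t D)⁻¹ = D - t D²`. -/
lemma fderiv_mul_iF {v : V → V} {x : V} (h : fderiv ℝ v x * fderiv ℝ v x * fderiv ℝ v x = 0)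
    (t : ℝ) :
    fderiv ℝ v x * iF v t x = fderiv ℝ v x - t • (fderiv ℝ v x * fderiv ℝ v x) := by
  have e : fderiv ℝ v x * iF v t x
      = fderiv ℝ v x - t • (fderiv ℝ v x * fderiv ℝ v x)
        + t ^ 2 • (fderiv ℝ v x * fderiv ℝ v x * fderiv ℝ v x) := by
    unfold iF
    change fderiv ℝ v x * (1 - t • fderiv ℝ v x + t ^ 2 • (fderiv ℝ v x * fderiv ℝ v x)) = _
    simp only [mul_add, mul_sub, mul_one, mul_smul_comm, mul_assoc]
  rw [e, h, smul_zero, add_zero]

/-- `id + t D` as an equivalence when `D³ = 0`. -/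
noncomputable def eF (v : V → V) (t : ℝ) (x : V)
    (h : fderiv ℝ v x * fderiv ℝ v x * fderiv ℝ v x = 0) : V ≃L[ℝ] V :=
  ContinuousLinearEquiv.equivOfInverse (dF v t x) (iF v t x)
    (fun y => by
      have := congrArg (fun L : V →L[ℝ] V => L y) (iF_mul_dF h t)
      simpa using this)
    (fun y => by
      have := congrArg (fun L : V →L[ℝ] V => L y) (dF_mul_iF h t)
      simpa using this)

variable {v : V → V}

lemma F_contDiff {n : WithTop ℕ∞} (hv : ContDiff ℝ n v) (t : ℝ) :
    ContDiff ℝ n (fun x => x + t • v x) :=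
  contDiff_id.add (hv.const_smul t)

/-- The step of the continuation argument. -/
lemma bij_step (hv : ContDiff ℝ 1 v)
    (hnil : ∀ x, fderiv ℝ v x * fderiv ℝ v x * fderiv ℝ v x = 0) {M : ℝ} (hM0 : 0 ≤ M)
    (hM : ∀ x, ‖fderiv ℝ v x‖ ≤ M) {T t s : ℝ} (ht : |t| ≤ T)
    (hb : Function.Bijective (fun x => x + t • v x))
    (hs : |s| * (M + T * M ^ 2) < 1) : Function.Bijective (fun x => x + (t + s) • v x) := by
  have hdiff : Differentiable ℝ v := hv.differentiable one_ne_zero
  obtain ⟨h, hh⟩ := exists_homeo (f := fun x => x + t • v x) (f' := fun x => eF v t x (hnil x))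
    (fun x => hasFDerivAt_F hdiff t x) (F_contDiff hv t) hb
  have hT0 : 0 ≤ T := (abs_nonneg t).trans ht
  let w : V → V := fun y => v (h.symm y)
  have hsymm : ∀ y, HasFDerivAt (h.symm : V → V) (iF v t (h.symm y)) y := by
    intro y
    have h1 : HasFDerivAt (fun x => x + t • v x) (eF v t (h.symm y) (hnil _) : V →L[ℝ] V)
        (h.symm y) := hasFDerivAt_F hdiff t _
    have h2 := HasFDerivAt.of_local_left_inverse (g := (h.symm : V → V)) (a := y)
      h.symm.continuous.continuousAt h1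
      (Filter.Eventually.of_forall fun z => by
        have := hh (h.symm z)
        rw [← this]; simp)
    exact h2
  have hw : ∀ y, HasFDerivAt w (fderiv ℝ v (h.symm y) * iF v t (h.symm y)) y := fun y =>
    (hdiff (h.symm y)).hasFDerivAt.comp y (hsymm y)
  have hwb : ∀ y, ‖fderiv ℝ v (h.symm y) * iF v t (h.symm y)‖ ≤ M + T * M ^ 2 := by
    intro y
    rw [fderiv_mul_iF (hnil _)]
    calc ‖fderiv ℝ v (h.symm y) - t • (fderiv ℝ v (h.symm y) * fderiv ℝ v (h.symm y))‖
        ≤ ‖fderiv ℝ v (h.symm y)‖ + ‖t • (fderiv ℝ v (h.symm y) * fderiv ℝ v (h.symm y))‖ :=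
          norm_sub_le _ _
      _ ≤ M + |t| * (M * M) := by
          rw [norm_smul, Real.norm_eq_abs]
          gcongr
          · exact hM _
          · exact (norm_mul_le _ _).trans (by gcongr <;> exact hM _)
      _ ≤ M + T * M ^ 2 := by
          rw [pow_two]; gcongr
  have hlip : ∀ x y, ‖w x - w y‖ ≤ (M + T * M ^ 2) * ‖x - y‖ := by
    intro x y
    exact Convex.norm_image_sub_le_of_norm_hasFDerivWithin_le
      (fun z _ => (hw z).hasFDerivWithinAt) (fun z _ => hwb z) convex_univ (mem_univ y)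
      (mem_univ x)
  have hb2 : Function.Bijective (fun x => x + s • w x) := by
    refine bijective_id_add (f := fun x => s • w x) (c := |s| * (M + T * M ^ 2)) (by positivity)
      hs ?_
    intro x y
    rw [← smul_sub, norm_smul, Real.norm_eq_abs, mul_assoc]
    gcongr
    exact hlip x y
  have hcomp : (fun x => x + (t + s) • v x) = (fun x => x + s • w x) ∘ (fun x => x + t • v x) := by
    ext1 x
    simp only [Function.comp, w]
    rw [← hh x, h.symm_apply_apply, hh x, add_smul, add_assoc]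
  rw [hcomp]
  exact hb2.comp hb

/-- For a periodic `C¹` field with nilpotent gradient all the maps `x ↦ x + t • v x` are
bijections. -/
lemma bij_all (hv : ContDiff ℝ 1 v) (hp : Periodic3 v)
    (hnil : ∀ x, fderiv ℝ v x * fderiv ℝ v x * fderiv ℝ v x = 0) (t : ℝ) :
    Function.Bijective (fun x => x + t • v x) := by
  obtain ⟨M, hM0, hM⟩ := hp.fderiv.bounded (hv.continuous_fderiv one_ne_zero)
  obtain ⟨N, hN⟩ := exists_nat_gt (|t| * (M + |t| * M ^ 2))
  have hNpos : 0 < (N : ℝ) := lt_of_le_of_lt (by positivity) hN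
  have key : ∀ n : ℕ, n ≤ N → Function.Bijective (fun x => x + (n * (t / N)) • v x) := by
    intro n
    induction n with
    | zero =>
      intro _
      simp only [Nat.cast_zero, zero_mul, zero_smul, add_zero]
      exact Function.bijective_id
    | succ n ih =>
      intro hn
      have h1 := ih (by omega)
      have h2 : |(n : ℝ) * (t / N)| ≤ |t| := by
        rw [abs_mul, abs_div, Nat.abs_cast, Nat.abs_cast]
        have : (n : ℝ) ≤ N := by exact_mod_cast (by omega : n ≤ N)
        calc (n : ℝ) * (|t| / N) = |t| * (n / N) := by ring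
          _ ≤ |t| * 1 := by
            gcongr
            exact (div_le_one hNpos).2 this
          _ = |t| := mul_one _
      have h3 : |t / N| * (M + |t| * M ^ 2) < 1 := by
        rw [abs_div, Nat.abs_cast, div_mul_eq_mul_div, div_lt_one hNpos]
        exact hN
      have := bij_step hv hnil hM0 hM h2 h1 h3
      have e : ((n + 1 : ℕ) : ℝ) * (t / N) = n * (t / N) + t / N := by
        push_cast; ring
      rw [e]
      exact this
  have := key N le_rfl
  have e : (N : ℝ) * (t / N) = t := by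
    field_simp
  rwa [e] at this

/-- The space-time particle map. -/
def Phi (v : V → V) (z : ℝ × V) : ℝ × V := (z.1, z.2 + z.1 • v z.2)

lemma Phi_bijective (hv : ContDiff ℝ 1 v) (hp : Periodic3 v)
    (hnil : ∀ x, fderiv ℝ v x * fderiv ℝ v x * fderiv ℝ v x = 0) :
    Function.Bijective (Phi v) := by
  constructor
  · rintro ⟨t, x⟩ ⟨s, y⟩ h
    simp only [Phi, Prod.mk.injEq] at h
    obtain ⟨rfl, h2⟩ := h
    have := (bij_all hv hp hnil t).injective h2
    rw [this]
  · rintro ⟨t, y⟩
    obtain ⟨x, hx⟩ := (bij_all hv hp hnil t).surjective y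
    exact ⟨(t, x), by simp only [Phi]; rw [← hx]⟩

/-- The derivative of the space-time particle map. -/
noncomputable def dPhi (v : V → V) (z : ℝ × V) : ℝ × V →L[ℝ] ℝ × V :=
  (ContinuousLinearMap.fst ℝ ℝ V).prod
    (dF v z.1 z.2 ∘L ContinuousLinearMap.snd ℝ ℝ V
      + (ContinuousLinearMap.fst ℝ ℝ V).smulRight (v z.2))

/-- The inverse of the derivative of the space-time particle map. -/
noncomputable def iPhi (v : V → V) (z : ℝ × V) : ℝ × V →L[ℝ] ℝ × V :=
  (ContinuousLinearMap.fst ℝ ℝ V).prod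
    (iF v z.1 z.2 ∘L (ContinuousLinearMap.snd ℝ ℝ V
      - (ContinuousLinearMap.fst ℝ ℝ V).smulRight (v z.2)))

lemma hasFDerivAt_Phi (hv : ContDiff ℝ 1 v) (z : ℝ × V) :
    HasFDerivAt (Phi v) (dPhi v z) z := by
  have hdiff : Differentiable ℝ v := hv.differentiable one_ne_zero
  have h1 : HasFDerivAt (fun z : ℝ × V => z.1) (ContinuousLinearMap.fst ℝ ℝ V) z :=
    hasFDerivAt_fst
  have h2 : HasFDerivAt (fun z : ℝ × V => z.2) (ContinuousLinearMap.snd ℝ ℝ V) z :=
    hasFDerivAt_snd
  have h3 : HasFDerivAt (fun z : ℝ × V => v z.2) (fderiv ℝ v z.2 ∘L ContinuousLinearMap.snd ℝ ℝ V) z :=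
    (hdiff z.2).hasFDerivAt.comp z h2
  have h4 := h1.prodMk (h2.add (h1.smul h3))
  refine h4.congr_fderiv ?_
  unfold dPhi dF
  congr 1
  ext1
  · ext y
    simp
  · ext y i
    simp

/-- The derivative of the space-time particle map as an equivalence. -/
noncomputable def ePhi (v : V → V) (z : ℝ × V)
    (h : fderiv ℝ v z.2 * fderiv ℝ v z.2 * fderiv ℝ v z.2 = 0) : (ℝ × V) ≃L[ℝ] (ℝ × V) :=
  ContinuousLinearEquiv.equivOfInverse (dPhi v z) (iPhi v z)
    (fun y => by
      have := congrArg (fun L : V →L[ℝ] V => L y.2) (iF_mul_dF h z.1)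
      refine Prod.ext ?_ ?_
      · simp [dPhi, iPhi]
      · simpa [dPhi, iPhi] using this)
    (fun y => by
      have := congrArg (fun L : V →L[ℝ] V => L (y.2 - y.1 • v z.2)) (dF_mul_iF h z.1)
      have h5 : dF v z.1 z.2 (iF v z.1 z.2 (y.2 - y.1 • v z.2)) = y.2 - y.1 • v z.2 := by
        simpa using this
      refine Prod.ext ?_ ?_
      · simp [dPhi, iPhi]
      · show dF v z.1 z.2 (iF v z.1 z.2 (y.2 - y.1 • v z.2)) + y.1 • v z.2 = y.2
        rw [h5, sub_add_cancel])

lemma Phi_contDiff {n : WithTop ℕ∞} (hv : ContDiff ℝ n v) : ContDiff ℝ n (Phi v) :=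
  contDiff_fst.prodMk (contDiff_snd.add (contDiff_fst.smul (hv.comp contDiff_snd)))

/-- The inverse of the space-time particle map exists and has the same regularity as `v`. -/
lemma exists_inverse {n : WithTop ℕ∞} (hn : 1 ≤ n) (hv : ContDiff ℝ n v) (hp : Periodic3 v)
    (hnil : ∀ x, fderiv ℝ v x * fderiv ℝ v x * fderiv ℝ v x = 0) :
    ∃ G : ℝ × V → V, ContDiff ℝ n G ∧ (∀ t x, G (t, x + t • v x) = x) ∧
      (∀ t y, G (t, y) + t • v (G (t, y)) = y) := by
  have hv1 : ContDiff ℝ 1 v := hv.of_le hn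
  obtain ⟨h, hh⟩ := exists_homeo (f := Phi v) (f' := fun z => ePhi v z (hnil z.2))
    (fun z => hasFDerivAt_Phi hv1 z) (Phi_contDiff hv1) (Phi_bijective hv1 hp hnil)
  have hh' : (h : ℝ × V → ℝ × V) = Phi v := funext hh
  have hsm : ContDiff ℝ n (h.symm : ℝ × V → ℝ × V) := by
    refine h.contDiff_symm (f₀' := fun z => ePhi v z (hnil z.2)) ?_ ?_
    · intro a
      rw [hh']
      exact hasFDerivAt_Phi hv1 a
    · rw [hh']
      exact Phi_contDiff hv
  refine ⟨fun z => (h.symm z).2, contDiff_snd.comp hsm, ?_, ?_⟩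
  · intro t x
    have : h.symm (Phi v (t, x)) = (t, x) := by
      rw [← hh, h.symm_apply_apply]
    show (h.symm (Phi v (t, x))).2 = x
    rw [this]
  · intro t y
    have h1 : Phi v (h.symm (t, y)) = (t, y) := by
      rw [← hh, h.apply_symm_apply]
    have h2 : (h.symm (t, y)).1 = t := congrArg Prod.fst h1
    have h3 : (h.symm (t, y)).2 + (h.symm (t, y)).1 • v (h.symm (t, y)).2 = y :=
      congrArg Prod.snd h1
    rw [h2] at h3
    exact h3

end Pool.Agent.H708R2.EulerSign
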