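import Pool.Agent.H708R2.EulerSign.Uniq
import Pool.Agent.H708R2.EulerSign.Flow

/-!
# Solutions with constant pressure have nilpotent gradients
-/

open MeasureTheory Set
open scoped ENNReal NNReal Topology Pointwise

namespace Pool.Agent.H708R2.EulerSign

variable {v : V → V} {T : ℝ} {w : ℝ → V → V} {q : ℝ → V → ℝ}

/-- Along a solution with spatially constant pressure the particles move with constant velocity. -/
lemma transport_of_pressureless (hw : IsClassicalSolution (Ico 0 T) w q)
    (hq : ∀ t ∈ Ico 0 T, ∀ x, fderiv ℝ (q t) x = 0) (h0 : w 0 = v) (a : V) {b : ℝ}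
    (hb : b ∈ Ico 0 T) : w b (a + b • v a) = v a := by
  set W : ℝ × V → V := fun z => w z.1 z.2 with hW
  have hu : UniqueDiffOn ℝ (Ico 0 T ×ˢ (univ : Set V)) :=
    (uniqueDiffOn_Ico 0 T).prod uniqueDiffOn_univ
  have hcW : ContinuousOn (fderivWithin ℝ W (Ico 0 T ×ˢ univ)) (Ico 0 T ×ˢ univ) :=
    hw.contDiffOn_u.continuousOn_fderivWithin hu le_rfl
  let γ : ℝ → ℝ × V := fun t => (t, a + t • v a)
  have hγc : Continuous γ := by fun_prop
  have hγm : MapsTo γ (Ico 0 T) (Ico 0 T ×ˢ univ) := fun t ht => ⟨ht, mem_univ _⟩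
  have hγd : ∀ t, HasDerivAt γ (1, v a) t := by
    intro t
    have e1 : HasDerivAt (fun s : ℝ => s) 1 t := hasDerivAt_id t
    have e2 : HasDerivAt (fun s : ℝ => a + s • v a) ((1 : ℝ) • v a) t :=
      (e1.smul_const (v a)).const_add a
    rw [one_smul] at e2
    exact e1.prodMk e2
  have hsub : Icc 0 b ⊆ Ico 0 T := Icc_subset_Ico_right hb.2
  obtain ⟨K, hK⟩ := (isCompact_Icc (a := (0 : ℝ)) (b := b)).exists_bound_of_continuousOn
    ((hcW.comp hγc.continuousOn hγm).mono hsub)
  let g : ℝ → V := fun t => w t (a + t • v a) - v a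
  -- derivative of `g`
  have hder : ∀ t ∈ Ico 0 T, HasDerivWithinAt g
      (-(fderiv ℝ (w t) (a + t • v a) (g t))) (Ico 0 T) t := by
    intro t ht
    set x := a + t • v a with hx
    have hd : HasFDerivWithinAt W (fderivWithin ℝ W (Ico 0 T ×ˢ univ) (t, x))
        (Ico 0 T ×ˢ univ) (t, x) :=
      ((hw.contDiffOn_u.differentiableOn one_ne_zero) (t, x) ⟨ht, mem_univ _⟩).hasFDerivWithinAt
    set D := fderivWithin ℝ W (Ico 0 T ×ˢ univ) (t, x) with hD
    have h1 : HasDerivWithinAt (W ∘ γ) (D (1, v a)) (Ico 0 T) t :=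
      HasFDerivWithinAt.comp_hasDerivWithinAt (f := γ) t hd (hγd t).hasDerivWithinAt hγm
    have h2 : HasFDerivWithinAt (w t) (D ∘L ContinuousLinearMap.inr ℝ ℝ V) univ x := by
      have e : HasFDerivWithinAt (fun y : V => ((t, y) : ℝ × V)) (ContinuousLinearMap.inr ℝ ℝ V)
          univ x := (hasFDerivAt_prodMk_right t x).hasFDerivWithinAt
      exact HasFDerivWithinAt.comp (g := W) (f := fun y : V => ((t, y) : ℝ × V)) x hd e
        (fun y _ => ⟨ht, mem_univ _⟩)
    have h2' : fderiv ℝ (w t) x = D ∘L ContinuousLinearMap.inr ℝ ℝ V :=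
      (hasFDerivWithinAt_univ.1 h2).fderiv
    have h3 : HasDerivWithinAt (fun s => w s x) (D (1, 0)) (Ico 0 T) t := by
      have e : HasDerivWithinAt (fun s : ℝ => ((s, x) : ℝ × V)) (1, 0) (Ico 0 T) t :=
        ((hasDerivAt_id t).prodMk (hasDerivAt_const t x)).hasDerivWithinAt
      exact HasFDerivWithinAt.comp_hasDerivWithinAt (l := W) (f := fun s : ℝ => ((s, x) : ℝ × V))
        t hd e (fun s hs => ⟨hs, mem_univ _⟩)
    have h4 : D (1, 0) = -(fderiv ℝ (w t) x (w t x)) := by
      ext i
      have m := hw.momentum t ht x i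
      rw [sum_mul_clm, hq t ht x] at m
      have e := (hasDerivWithinAt_pi.1 h3 i).derivWithin (uniqueDiffOn_Ico 0 T t ht)
      rw [e] at m
      simp only [zero_apply, neg_zero] at m
      simp only [Pi.neg_apply]
      linarith
    have h5 : D (1, v a) = -(fderiv ℝ (w t) x (g t)) := by
      have e : ((1, v a) : ℝ × V) = (1, 0) + ContinuousLinearMap.inr ℝ ℝ V (v a) := by simp
      have e2 : D (ContinuousLinearMap.inr ℝ ℝ V (v a)) = fderiv ℝ (w t) x (v a) := by
        rw [h2']; rfl
      rw [e, map_add, h4, e2]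
      show _ = -(fderiv ℝ (w t) x (w t x - v a))
      rw [map_sub]
      abel
    rw [h5] at h1
    exact h1.sub_const (v a)
  have hgc : ContinuousOn g (Icc 0 b) := fun t ht =>
    ((hder t (hsub ht)).continuousWithinAt).mono hsub
  have hz := eq_zero_of_abs_deriv_le_mul_abs_self_of_eq_zero_right (K := K) hgc
    (f' := fun t => -(fderiv ℝ (w t) (a + t • v a) (g t))) ?_ ?_ ?_ b ⟨hb.1, le_rfl⟩
  · exact sub_eq_zero.1 hz
  · intro t ht
    refine (hder t (hsub (Ico_subset_Icc_self ht))).mono_of_mem_nhdsWithin ?_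
    have : Ico t T ∈ 𝓝[≥] t := Ico_mem_nhdsGE (ht.2.trans hb.2)
    exact Filter.mem_of_superset this (Ico_subset_Ico_left ht.1)
  · show w 0 (a + (0 : ℝ) • v a) - v a = 0
    rw [h0, zero_smul, add_zero, sub_self]
  · intro t ht
    have htI := hsub (Ico_subset_Icc_self ht)
    have hd : HasFDerivWithinAt W (fderivWithin ℝ W (Ico 0 T ×ˢ univ) (t, a + t • v a))
        (Ico 0 T ×ˢ univ) (t, a + t • v a) :=
      ((hw.contDiffOn_u.differentiableOn one_ne_zero) (t, a + t • v a)
        ⟨htI, mem_univ _⟩).hasFDerivWithinAt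
    have h2 : HasFDerivWithinAt (w t)
        (fderivWithin ℝ W (Ico 0 T ×ˢ univ) (t, a + t • v a) ∘L ContinuousLinearMap.inr ℝ ℝ V)
        univ (a + t • v a) := by
      have e : HasFDerivWithinAt (fun y : V => ((t, y) : ℝ × V)) (ContinuousLinearMap.inr ℝ ℝ V)
          univ (a + t • v a) := (hasFDerivAt_prodMk_right t _).hasFDerivWithinAt
      exact HasFDerivWithinAt.comp (g := W) (f := fun y : V => ((t, y) : ℝ × V)) _ hd e
        (fun y _ => ⟨htI, mem_univ _⟩)
    rw [(hasFDerivWithinAt_univ.1 h2).fderiv, norm_neg]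
    refine (ContinuousLinearMap.le_opNorm _ _).trans ?_
    gcongr
    refine (ContinuousLinearMap.opNorm_comp_le _ _).trans ?_
    calc _ ≤ K * 1 := by
          gcongr
          · exact (norm_nonneg _).trans (hK t (Ico_subset_Icc_self ht))
          · exact hK t (Ico_subset_Icc_self ht)
          · exact ContinuousLinearMap.norm_inr_le_one ℝ ℝ V
      _ = K := mul_one K

lemma trace_mul_adjugate (A : Matrix (Fin 3) (Fin 3) ℝ) (t : ℝ) :
    (A * (1 + t • A).adjugate).trace
      = A.trace + 2 * t * ((A.trace ^ 2 - (A * A).trace) / 2) + 3 * t ^ 2 * A.det := by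
  rw [Matrix.adjugate_fin_three]
  simp [Matrix.det_fin_three, Matrix.trace, Matrix.mul_apply, Fin.sum_univ_three, Matrix.diag]
  ring

/-- The gradient of the initial velocity of a solution with spatially constant pressure has
vanishing invariants. -/
lemma inv_eq_zero_of_pressureless (hT : 0 < T) (hv : ContDiff ℝ 1 v)
    (hdiv : ∀ x, divergence v x = 0) (hw : IsClassicalSolution (Ico 0 T) w q)
    (hq : ∀ t ∈ Ico 0 T, ∀ x, fderiv ℝ (q t) x = 0) (h0 : w 0 = v) (a : V) :
    invQ v a = 0 ∧ invR v a = 0 := by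
  have hdiff : Differentiable ℝ v := hv.differentiable one_ne_zero
  have key : ∀ t ∈ Ioo 0 T, 2 * invQ v a - 3 * t * invR v a = 0 := by
    intro t ht
    have htI : t ∈ Ico 0 T := ⟨ht.1.le, ht.2⟩
    have hwt : ContDiff ℝ 1 (w t) := contDiff_slice hw.contDiffOn_u htI
    have h1 : HasFDerivAt (fun x => x + t • v x) (dF v t a) a := hasFDerivAt_F hdiff t a
    have h2 : HasFDerivAt (w t) (fderiv ℝ (w t) (a + t • v a)) (a + t • v a) :=
      (hwt.differentiable one_ne_zero _).hasFDerivAt
    have h3 : HasFDerivAt ((w t) ∘ (fun x => x + t • v x))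
        (fderiv ℝ (w t) (a + t • v a) ∘L dF v t a) a := HasFDerivAt.comp a h2 h1
    have h4 : (w t) ∘ (fun x => x + t • v x) = v := by
      ext1 x; exact transport_of_pressureless hw hq h0 x htI
    rw [h4] at h3
    have h5 : fderiv ℝ (w t) (a + t • v a) * dF v t a = fderiv ℝ v a :=
      h3.unique (hdiff a).hasFDerivAt
    have h6 : grad (w t) (a + t • v a) * (1 + t • grad v a) = grad v a := by
      rw [← toMatrix_fderiv v a, ← toMatrix_fderiv (w t)]
      have e : (1 + t • LinearMap.toMatrix' (fderiv ℝ v a : V →ₗ[ℝ] V))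
          = LinearMap.toMatrix' (dF v t a : V →ₗ[ℝ] V) := by
        rw [dF]
        ext i j
        simp [LinearMap.toMatrix'_apply, Matrix.one_apply, Pi.single_apply]
      rw [e, ← LinearMap.toMatrix'_mul]
      conv_rhs => rw [← h5]
      rfl
    have h7 : (1 + t • grad v a).det • grad (w t) (a + t • v a)
        = grad v a * (1 + t • grad v a).adjugate := by
      have e := congrArg (fun B => B * (1 + t • grad v a).adjugate) h6
      rw [← e, mul_assoc, Matrix.mul_adjugate]
      simp
    have h8 := congrArg Matrix.trace h7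
    have h9 : (grad (w t) (a + t • v a)).trace = 0 := hw.div_free t htI _
    have h10 : (grad v a).trace = 0 := hdiv a
    rw [Matrix.trace_smul, h9, trace_mul_adjugate, h10, smul_zero] at h8
    have ht0 : t ≠ 0 := ht.1.ne'
    apply mul_left_cancel₀ ht0
    rw [invQ, invR]
    linarith
  have k1 := key (T / 2) ⟨by linarith, by linarith⟩
  have k2 := key (T / 4) ⟨by linarith, by linarith⟩
  have hR : invR v a = 0 := by
    have : T * invR v a = 0 := by linarith
    exact (mul_eq_zero.1 this).resolve_left hT.ne'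
  rw [hR] at k1
  exact ⟨by linarith, hR⟩

end Pool.Agent.H708R2.EulerSign
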