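import Pool.Agent.H708R2.EulerSign.Jac

/-!
# One-sided invariants vanish
-/

open MeasureTheory Set
open scoped ENNReal NNReal Topology Pointwise

namespace Pool.Agent.H708R2.EulerSign

variable {v : V → V}

lemma oneSided_of_keepsSign (hQ : KeepsSign (invQ v)) (hR : KeepsSign (invR v)) : OneSided v := by
  obtain ⟨α, hα, h1⟩ : ∃ α : ℝ, α ≠ 0 ∧ ∀ x, 0 ≤ α * invQ v x := by
    rcases hQ with h | h
    · exact ⟨1, one_ne_zero, fun x => by simpa using h x⟩
    · exact ⟨-1, by norm_num, fun x => by simpa using h x⟩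
  obtain ⟨δ, hδ, h2⟩ : ∃ δ : ℝ, δ ≠ 0 ∧ ∀ x, 0 ≤ δ * invR v x := by
    rcases hR with h | h
    · exact ⟨1, one_ne_zero, fun x => by simpa using h x⟩
    · exact ⟨-1, by norm_num, fun x => by simpa using h x⟩
  refine ⟨α, 0, 0, δ, ?_, fun x => ?_, fun x _ => ?_⟩
  · simpa using ⟨hα, hδ⟩
  · simpa using h1 x
  · simpa using h2 x

lemma eval_charpoly_three (A : Matrix (Fin 3) (Fin 3) ℝ) (t : ℝ) :
    A.charpoly.eval t = t ^ 3 - A.trace * t ^ 2 + ((A.trace ^ 2 - (A * A).trace) / 2) * t
      - A.det := by
  rw [Matrix.eval_charpoly]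
  simp [Matrix.det_fin_three, Matrix.trace, Matrix.mul_apply, Fin.sum_univ_three, Matrix.diag]
  ring

lemma oneSided_of_realSpectrum (hdiv : ∀ x, divergence v x = 0) (h : RealSpectrum v) :
    OneSided v := by
  have key : ∀ x, ∃ a b c : ℝ, a + b + c = 0 ∧ invQ v x = a * b + a * c + b * c
      ∧ invR v x = -(a * b * c) := by
    intro x
    have hs := h x
    have hm : (grad v x).charpoly.Monic := Matrix.charpoly_monic _
    have hcard : (grad v x).charpoly.roots.card = 3 := by
      rw [← hs.natDegree_eq_card_roots, Matrix.charpoly_natDegree_eq_dim]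
      simp
    obtain ⟨a, b, c, habc⟩ := Multiset.card_eq_three.1 hcard
    have hev : ∀ t : ℝ, (t - a) * ((t - b) * (t - c)) = t ^ 3 + invQ v x * t + invR v x := by
      intro t
      have h1 := hs.eval_eq_prod_roots_of_monic hm t
      rw [habc, eval_charpoly_three] at h1
      have h2 : (grad v x).trace = 0 := hdiv x
      rw [h2] at h1
      simp only [Multiset.insert_eq_cons, Multiset.map_cons, Multiset.map_singleton,
        Multiset.prod_cons, Multiset.prod_singleton] at h1
      rw [← h1, invQ, invR]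
      ring
    have e0 := hev 0
    have e1 := hev 1
    have e2 := hev (-1)
    refine ⟨a, b, c, ?_, ?_, ?_⟩
    · linarith
    · linarith
    · linarith
  refine ⟨-1, 0, 0, 1, by norm_num, fun x => ?_, fun x hx => ?_⟩
  · obtain ⟨a, b, c, h1, h2, -⟩ := key x
    rw [h2]
    nlinarith [sq_nonneg a, sq_nonneg b, sq_nonneg c, sq_nonneg (a + b + c)]
  · obtain ⟨a, b, c, h1, h2, h3⟩ := key x
    have h4 : a * b + a * c + b * c = 0 := by rw [← h2]; linarith
    have h5 : a ^ 2 + b ^ 2 + c ^ 2 = 0 := by
      have : (a + b + c) ^ 2 = a ^ 2 + b ^ 2 + c ^ 2 + 2 * (a * b + a * c + b * c) := by ring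
      rw [h1, h4] at this
      linarith
    have h6 : a = 0 := by nlinarith [sq_nonneg a, sq_nonneg b, sq_nonneg c]
    rw [h3, h6]
    simp

/-- If the pair `(Q, R)` is one-sided then it vanishes identically. -/
theorem inv_eq_zero_of_oneSided (hv : ContDiff ℝ 1 v) (hp : Periodic3 v)
    (hdiv : ∀ x, divergence v x = 0) (h : OneSided v) :
    (∀ x, invQ v x = 0) ∧ (∀ x, invR v x = 0) := by
  obtain ⟨α, β, γ, δ, hdet, h1, h2⟩ := h
  obtain ⟨iQ, iR⟩ := integral_inv_eq_zero hv hp hdiv
  have comb : ∀ a b : ℝ, (∀ x, 0 ≤ a * invQ v x + b * invR v x) →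
      ∀ x, a * invQ v x + b * invR v x = 0 := by
    intro a b hab
    refine eq_zero_of_integral_eq_zero ?_ ?_ hab ?_
    · intro i x
      simp only
      rw [hp.invQ i x, hp.invR i x]
    · exact (continuous_const.mul (continuous_invQ hv)).add
        (continuous_const.mul (continuous_invR hv))
    · have e : ∫ x in Dom, (a * invQ v x + b * invR v x)
          = (∫ x in Dom, a * invQ v x) + ∫ x in Dom, b * invR v x :=
        integral_add ((hp.invQ.integrableOn (continuous_invQ hv)).const_mul a)
          ((hp.invR.integrableOn (continuous_invR hv)).const_mul b)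
      rw [e, integral_const_mul, integral_const_mul, iQ, iR]
      simp
  have k1 := comb α β h1
  have k2 := comb γ δ (fun x => h2 x (k1 x))
  constructor
  · intro x
    have : (α * δ - β * γ) * invQ v x = 0 := by
      linear_combination δ * k1 x - β * k2 x
    exact (mul_eq_zero.1 this).resolve_left hdet
  · intro x
    have : (α * δ - β * γ) * invR v x = 0 := by
      linear_combination α * k2 x - γ * k1 x
    exact (mul_eq_zero.1 this).resolve_left hdet

end Pool.Agent.H708R2.EulerSign
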