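import Mathlib

/-!
# Definitions: periodic fields on `ℝ³`, velocity gradient, classical Euler solutions
-/

open MeasureTheory Set

namespace Pool.Agent.H708R2.EulerSign

/-- The space `ℝ³`. -/
abbrev V := Fin 3 → ℝ

/-- `f` is `2π`-periodic in each of the three coordinates, i.e. it is a function on
`𝕋³ = [-π, π]³` with opposite faces identified. -/
def Periodic3 {F : Type*} (f : V → F) : Prop :=
  ∀ (i : Fin 3) (x : V), f (x + Pi.single i (2 * Real.pi)) = f x

/-- The velocity gradient: the matrix with entries `∂ⱼ vᵢ (x)`. -/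
noncomputable def grad (v : V → V) (x : V) : Matrix (Fin 3) (Fin 3) ℝ :=
  Matrix.of fun i j => fderiv ℝ v x (Pi.single j 1) i

/-- The divergence. -/
noncomputable def divergence (v : V → V) (x : V) : ℝ := (grad v x).trace

/-- The second invariant `Q = - tr ((∇v)²) / 2` of the velocity gradient. -/
noncomputable def invQ (v : V → V) (x : V) : ℝ := -(1 / 2) * (grad v x * grad v x).trace

/-- The third invariant `R = - det ∇v` of the velocity gradient. -/
noncomputable def invR (v : V → V) (x : V) : ℝ := -(grad v x).det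

/-- All eigenvalues of the velocity gradient are real at every point: the characteristic polynomial
of `∇v(x)` is a product of real linear factors for every `x`. -/
def RealSpectrum (v : V → V) : Prop := ∀ x, (grad v x).charpoly.Splits

/-- `f` does not take values of both (strict) signs. -/
def KeepsSign (f : V → ℝ) : Prop := (∀ x, 0 ≤ f x) ∨ (∀ x, f x ≤ 0)

/-- The pair `(Q, R)` of invariants of the velocity gradient is (lexicographically) one-sided: in
suitable linear coordinates `(a, b)` of the plane it takes its values in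
`{a > 0} ∪ {a = 0, b ≥ 0}`. -/
def OneSided (v : V → V) : Prop :=
  ∃ α β γ δ : ℝ, α * δ - β * γ ≠ 0 ∧
    (∀ x, 0 ≤ α * invQ v x + β * invR v x) ∧
    (∀ x, α * invQ v x + β * invR v x = 0 → 0 ≤ γ * invQ v x + δ * invR v x)

/-- `(u, p)` is a classical solution of the incompressible Euler equations on `𝕋³` for the times in
the set `I`: `u` and `p` are continuously differentiable in `(t, x)`, `2π`-periodic in `x`,
`div u = 0` and `∂ₜ uᵢ + ∑ⱼ uⱼ ∂ⱼ uᵢ = - ∂ᵢ p`. -/
structure IsClassicalSolution (I : Set ℝ) (u : ℝ → V → V) (p : ℝ → V → ℝ) : Prop where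
  contDiffOn_u : ContDiffOn ℝ 1 (fun z : ℝ × V => u z.1 z.2) (I ×ˢ univ)
  contDiffOn_p : ContDiffOn ℝ 1 (fun z : ℝ × V => p z.1 z.2) (I ×ˢ univ)
  periodic_u : ∀ t ∈ I, Periodic3 (u t)
  periodic_p : ∀ t ∈ I, Periodic3 (p t)
  div_free : ∀ t ∈ I, ∀ x, divergence (u t) x = 0
  momentum : ∀ t ∈ I, ∀ x i,
    derivWithin (fun s => u s x i) I t + ∑ j, u t x j * fderiv ℝ (u t) x (Pi.single j 1) i
      = - fderiv ℝ (p t) x (Pi.single i 1)

/-- The sum of the squares of the `L²` norms over `𝕋³ = [-π, π]³` of all derivatives of `f` of order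
at most `m`, i.e. the square of a norm equivalent to the norm of `H^m`. -/
noncomputable def sobolevSq (m : ℕ) (f : V → V) : ℝ :=
  ∑ j ∈ Finset.range (m + 1),
    ∫ x in Icc (fun _ : Fin 3 => -Real.pi) (fun _ => Real.pi), ‖iteratedFDeriv ℝ j f x‖ ^ 2

end Pool.Agent.H708R2.EulerSign
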