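import Pool.Agent.H708R2.EulerSign.Defs

/-!
# Volume and Jacobian identities for periodic maps of `ℝ³`

If `F : ℝ³ → ℝ³` is a bijection which commutes with the translations by the lattice `2πℤ³` and is
differentiable, then the integral of `|det DF|` over a period cell is the volume of the cell.
Applied to `x ↦ x + s • v x` with `v` periodic and `s` small this gives that the integrals of the
second and of the third invariant of `Dv` over a period cell vanish, for `v` of class `C¹`.
-/

open MeasureTheory Set
open scoped ENNReal NNReal Topology Pointwise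

namespace Pool.Agent.H708R2.EulerSign

/-- The basis `2π e₁, 2π e₂, 2π e₃`. -/
noncomputable def bas : Module.Basis (Fin 3) ℝ V :=
  (Pi.basisFun ℝ (Fin 3)).isUnitSMul (w := fun _ => 2 * Real.pi)
    (fun _ => IsUnit.mk0 _ (by positivity))

lemma bas_apply (i : Fin 3) : bas i = Pi.single i (2 * Real.pi) := by
  rw [bas, Module.Basis.isUnitSMul_apply]
  ext j
  by_cases h : j = i
  · subst h; simp
  · simp [h]

/-- The lattice `2πℤ³`. -/
noncomputable abbrev Lat : AddSubgroup V := (Submodule.span ℤ (Set.range bas)).toAddSubgroup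

/-- The period cell `[0, 2π)³`. -/
noncomputable abbrev Dom : Set V := ZSpan.fundamentalDomain bas

lemma Periodic3.lat {F : Type*} {f : V → F} (hf : Periodic3 f) {g : V} (hg : g ∈ Lat) (x : V) :
    f (x + g) = f x := by
  let P : AddSubgroup V :=
    { carrier := {g | ∀ x, f (x + g) = f x}
      zero_mem' := by intro x; simp
      add_mem' := by
        intro a b ha hb x
        rw [← add_assoc, hb, ha]
      neg_mem' := by
        intro a ha x
        have := ha (x + -a)
        rw [neg_add_cancel_right] at this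
        exact this.symm }
  have hle : Submodule.span ℤ (Set.range bas) ≤ AddSubgroup.toIntSubmodule P := by
    rw [Submodule.span_le]
    rintro _ ⟨i, rfl⟩
    intro x
    rw [bas_apply]
    exact hf i x
  exact hle hg x

lemma dom_meas : MeasurableSet Dom := ZSpan.fundamentalDomain_measurableSet bas

lemma dom_fd : IsAddFundamentalDomain Lat Dom (volume : Measure V) :=
  ZSpan.isAddFundamentalDomain' bas volume

lemma dom_bdd : Bornology.IsBounded Dom := ZSpan.fundamentalDomain_isBounded bas

lemma dom_lt_top : volume Dom < ∞ := dom_bdd.measure_lt_top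

lemma dom_exists_unique (x : V) : ∃! g : Lat, g +ᵥ x ∈ Dom :=
  ZSpan.exist_unique_vadd_mem_fundamentalDomain bas x

lemma dom_ne_zero : volume Dom ≠ 0 := ZSpan.measure_fundamentalDomain_ne_zero bas

/-- The image of the period cell under a bijection commuting with the lattice translations is
again a fundamental domain. -/
lemma image_fd {F : V → V} (hF : Function.Bijective F) (hc : Continuous F)
    (hper : ∀ g ∈ Lat, ∀ x, F (x + g) = F x + g) :
    IsAddFundamentalDomain Lat (F '' Dom) (volume : Measure V) := by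
  refine IsAddFundamentalDomain.mk' ?_ ?_
  · exact (dom_meas.image_of_continuousOn_injOn hc.continuousOn hF.injective.injOn).nullMeasurableSet
  · intro y
    obtain ⟨x, rfl⟩ := hF.surjective y
    obtain ⟨g, hg, huniq⟩ := dom_exists_unique x
    have key : ∀ g : Lat, g +ᵥ F x = F (g +ᵥ x) := by
      intro g
      have h1 := hper g g.2 x
      have h2 : (g +ᵥ x : V) = x + g := by
        rw [add_comm]; rfl
      rw [h2, h1, add_comm]; rfl
    refine ⟨g, ?_, ?_⟩
    · show g +ᵥ F x ∈ F '' Dom
      rw [key]
      exact ⟨_, hg, rfl⟩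
    · intro g' hg'
      apply huniq
      have hg'' : g' +ᵥ F x ∈ F '' Dom := hg'
      rw [key] at hg''
      obtain ⟨z, hz, hzz⟩ := hg''
      have : z = g' +ᵥ x := hF.injective hzz
      rw [← this]; exact hz

instance lat_countable : Countable Lat :=
  inferInstanceAs (Countable (Submodule.span ℤ (Set.range bas)))

/-- A differentiable bijection commuting with the lattice translations preserves the volume of a
period cell. -/
lemma lintegral_det_eq {F : V → V} {F' : V → V →L[ℝ] V} (hF : Function.Bijective F)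
    (hd : ∀ x, HasFDerivAt F (F' x) x)
    (hper : ∀ g ∈ Lat, ∀ x, F (x + g) = F x + g) :
    ∫⁻ x in Dom, ENNReal.ofReal |(F' x).det| = volume Dom := by
  have hc : Continuous F := continuous_iff_continuousAt.2 fun x => (hd x).continuousAt
  rw [lintegral_abs_det_fderiv_eq_addHaar_image volume dom_meas
    (fun x _ => (hd x).hasFDerivWithinAt) hF.injective.injOn]
  exact (image_fd hF hc hper).measure_eq dom_fd

lemma toMatrix_fderiv (v : V → V) (x : V) :
    LinearMap.toMatrix' (fderiv ℝ v x : V →ₗ[ℝ] V) = grad v x := by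
  ext i j
  simp only [LinearMap.toMatrix'_apply, grad, Matrix.of_apply]
  rfl

lemma det_one_add_smul (A : Matrix (Fin 3) (Fin 3) ℝ) (s : ℝ) :
    (1 + s • A).det = 1 + s * A.trace + s ^ 2 * ((A.trace ^ 2 - (A * A).trace) / 2)
      + s ^ 3 * A.det := by
  simp [Matrix.det_fin_three, Matrix.trace, Matrix.mul_apply, Fin.sum_univ_three, Matrix.diag]
  ring

/-- The derivative of `x ↦ x + s • v x`. -/
noncomputable def dF (v : V → V) (s : ℝ) (x : V) : V →L[ℝ] V :=
  ContinuousLinearMap.id ℝ V + s • fderiv ℝ v x

lemma dF_det (v : V → V) (s : ℝ) (x : V) :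
    (dF v s x).det = (1 + s • grad v x).det := by
  rw [← toMatrix_fderiv, ContinuousLinearMap.det, ← LinearMap.det_toMatrix']
  congr 1
  rw [dF]
  ext i j
  simp [LinearMap.toMatrix'_apply, Matrix.one_apply, Pi.single_apply]

lemma dF_det_of_div {v : V → V} {x : V} (h : divergence v x = 0) (s : ℝ) :
    (dF v s x).det = 1 + s ^ 2 * invQ v x - s ^ 3 * invR v x := by
  rw [dF_det, det_one_add_smul]
  have : (grad v x).trace = 0 := h
  rw [this, invQ, invR]
  ring

lemma hasFDerivAt_F {v : V → V} (hv : Differentiable ℝ v) (s : ℝ) (x : V) :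
    HasFDerivAt (fun x => x + s • v x) (dF v s x) x :=
  (hasFDerivAt_id x).add ((hv x).hasFDerivAt.const_smul s)

lemma F_per {v : V → V} (hp : Periodic3 v) (s : ℝ) : ∀ g ∈ Lat, ∀ x : V,
    (fun x => x + s • v x) (x + g) = (fun x => x + s • v x) x + g := by
  intro g hg x
  simp only
  rw [hp.lat hg]
  abel

/-- A continuous periodic function is bounded. -/
lemma Periodic3.bounded {E : Type*} [SeminormedAddCommGroup E] {f : V → E} (hp : Periodic3 f)
    (hc : Continuous f) : ∃ C : ℝ, 0 ≤ C ∧ ∀ x, ‖f x‖ ≤ C := by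
  have hK : IsCompact (closure Dom) := dom_bdd.isCompact_closure
  obtain ⟨C, hC⟩ := hK.exists_bound_of_continuousOn hc.continuousOn
  refine ⟨|C|, abs_nonneg C, fun x => ?_⟩
  obtain ⟨g, hg, -⟩ := dom_exists_unique x
  have h2 : (g +ᵥ x : V) = x + g := by rw [add_comm]; rfl
  have h3 : x + (g : V) ∈ closure Dom := by
    rw [← h2]; exact subset_closure hg
  have := hC _ h3
  rw [hp.lat g.2] at this
  exact this.trans (le_abs_self C)

lemma Periodic3.fderiv {E : Type*} [NormedAddCommGroup E] [NormedSpace ℝ E] {f : V → E}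
    (hp : Periodic3 f) : Periodic3 (fderiv ℝ f) := by
  intro i x
  have h1 : f = fun y => f (y + Pi.single i (2 * Real.pi)) := by
    ext y; rw [hp]
  conv_rhs => rw [h1]
  rw [fderiv_comp_add_right]

lemma Periodic3.integrableOn {f : V → ℝ} (hp : Periodic3 f) (hc : Continuous f) :
    IntegrableOn f Dom := by
  obtain ⟨C, -, hC⟩ := hp.bounded hc
  exact Measure.integrableOn_of_bounded dom_lt_top.ne hc.aestronglyMeasurable
    (Filter.Eventually.of_forall hC)

lemma continuous_grad {v : V → V} (hv : ContDiff ℝ 1 v) : Continuous (grad v) := by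
  have h : Continuous (_root_.fderiv ℝ v) := hv.continuous_fderiv one_ne_zero
  refine continuous_matrix fun i j => ?_
  exact (continuous_apply i).comp (h.clm_apply continuous_const)

lemma Periodic3.grad {v : V → V} (hp : Periodic3 v) : Periodic3 (grad v) := by
  intro i x
  unfold EulerSign.grad
  rw [hp.fderiv i x]

lemma continuous_invQ {v : V → V} (hv : ContDiff ℝ 1 v) : Continuous (invQ v) :=
  continuous_const.mul ((continuous_grad hv).matrix_mul (continuous_grad hv)).matrix_trace

lemma continuous_invR {v : V → V} (hv : ContDiff ℝ 1 v) : Continuous (invR v) :=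
  (continuous_grad hv).matrix_det.neg

lemma Periodic3.invQ {v : V → V} (hp : Periodic3 v) : Periodic3 (invQ v) := by
  intro i x
  unfold EulerSign.invQ
  rw [hp.grad i x]

lemma Periodic3.invR {v : V → V} (hp : Periodic3 v) : Periodic3 (invR v) := by
  intro i x
  unfold EulerSign.invR
  rw [hp.grad i x]

/-- If `f` has small Lipschitz constant then `x ↦ x + f x` is a bijection. -/
lemma bijective_id_add {f : V → V} {c : ℝ} (hc0 : 0 ≤ c) (hc : c < 1)
    (hf : ∀ x y, ‖f x - f y‖ ≤ c * ‖x - y‖) : Function.Bijective (fun x => x + f x) := by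
  have h : ApproximatesLinearOn (fun x => x + f x)
      ((ContinuousLinearEquiv.refl ℝ V : V ≃L[ℝ] V) : V →L[ℝ] V) univ ⟨c, hc0⟩ := by
    intro x _ y _
    have : x + f x - (y + f y) - ((ContinuousLinearEquiv.refl ℝ V : V ≃L[ℝ] V) : V →L[ℝ] V) (x - y)
        = f x - f y := by
      simp
      abel
    rw [this]
    exact hf x y
  have hN : Subsingleton V ∨ (⟨c, hc0⟩ : ℝ≥0) <
      ‖((ContinuousLinearEquiv.refl ℝ V).symm : V →L[ℝ] V)‖₊⁻¹ := by
    right
    have : ‖((ContinuousLinearEquiv.refl ℝ V).symm : V →L[ℝ] V)‖₊ = 1 := by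
      ext
      simp only [coe_nnnorm, NNReal.coe_one]
      exact ContinuousLinearMap.norm_id
    rw [this, inv_one]
    exact hc
  exact (h.toHomeomorph _ hN).bijective

lemma Periodic3.trace {v : V → V} (hp : Periodic3 v) : Periodic3 (fun x => (EulerSign.grad v x).trace) := by
  intro i x
  simp only
  rw [hp.grad i x]

/-- The integrals of the three invariants of the gradient of a periodic field of class `C¹` over a
period cell vanish. -/
theorem integral_invariants {v : V → V} (hv : ContDiff ℝ 1 v) (hp : Periodic3 v) :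
    ∫ x in Dom, (grad v x).trace = 0 ∧
    ∫ x in Dom, ((grad v x).trace ^ 2 - (grad v x * grad v x).trace) / 2 = 0 ∧
    ∫ x in Dom, (grad v x).det = 0 := by
  obtain ⟨M, hM0, hM⟩ := hp.fderiv.bounded (hv.continuous_fderiv one_ne_zero)
  set J1 : V → ℝ := fun x => (grad v x).trace with hJ1
  set J2 : V → ℝ := fun x => ((grad v x).trace ^ 2 - (grad v x * grad v x).trace) / 2 with hJ2
  set J3 : V → ℝ := fun x => (grad v x).det with hJ3
  have p1 : Periodic3 J1 := hp.trace
  have p2 : Periodic3 J2 := by intro i x; simp only [hJ2]; rw [hp.grad i x]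
  have p3 : Periodic3 J3 := by intro i x; simp only [hJ3]; rw [hp.grad i x]
  have c1 : Continuous J1 := (continuous_grad hv).matrix_trace
  have c2 : Continuous J2 :=
    (((continuous_grad hv).matrix_trace.pow 2).sub
      ((continuous_grad hv).matrix_mul (continuous_grad hv)).matrix_trace).div_const 2
  have c3 : Continuous J3 := (continuous_grad hv).matrix_det
  obtain ⟨C1, h10, h1⟩ := p1.bounded c1
  obtain ⟨C2, h20, h2⟩ := p2.bounded c2
  obtain ⟨C3, h30, h3⟩ := p3.bounded c3
  have hdiff : Differentiable ℝ v := hv.differentiable one_ne_zero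
  have hlip : ∀ x y, ‖v x - v y‖ ≤ M * ‖x - y‖ := by
    intro x y
    exact Convex.norm_image_sub_le_of_norm_fderiv_le (fun z _ => hdiff z) (fun z _ => hM z)
      convex_univ (mem_univ y) (mem_univ x)
  set K : ℝ := 1 + M + C1 + C2 + C3 with hK
  have hK1 : 1 ≤ K := by rw [hK]; linarith
  -- the key identity for small `s`
  have key : ∀ s : ℝ, 0 < s → s ≤ 1 / (2 * K) →
      (∫ x in Dom, J1 x) + s * (∫ x in Dom, J2 x) + s ^ 2 * (∫ x in Dom, J3 x) = 0 := by
    intro s hs hsK
    have hKpos : 0 < K := by linarith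
    have hsK' : s * K ≤ 1 / 2 := by
      calc s * K ≤ 1 / (2 * K) * K := by gcongr
        _ = 1 / 2 := by field_simp
    have hs1 : s ≤ 1 := by nlinarith
    have hsM : s * M < 1 := by nlinarith
    have hbij : Function.Bijective (fun x : V => x + s • v x) := by
      refine bijective_id_add (f := fun x => s • v x) (c := s * M) (by positivity) hsM ?_
      intro x y
      rw [← smul_sub, norm_smul, Real.norm_eq_abs, abs_of_pos hs, mul_assoc]
      gcongr
      exact hlip x y
    have e1 := lintegral_det_eq hbij (fun x => hasFDerivAt_F hdiff s x) (F_per hp s)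
    have hdet : ∀ x, (dF v s x).det = 1 + s * J1 x + s ^ 2 * J2 x + s ^ 3 * J3 x := by
      intro x
      rw [dF_det, det_one_add_smul]
    have hpos : ∀ x, 0 ≤ 1 + s * J1 x + s ^ 2 * J2 x + s ^ 3 * J3 x := by
      intro x
      have a1 := h1 x
      have a2 := h2 x
      have a3 := h3 x
      rw [Real.norm_eq_abs, abs_le] at a1 a2 a3
      have b1 : s ^ 2 ≤ s := by nlinarith
      have b2 : s ^ 3 ≤ s := by nlinarith [sq_nonneg s]
      have d1 : -(s * C1) ≤ s * J1 x := by nlinarith
      have d2 : -(s * C2) ≤ s ^ 2 * J2 x := by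
        have : s ^ 2 * J2 x ≥ s ^ 2 * (-C2) := by gcongr; exact a2.1
        nlinarith
      have d3 : -(s * C3) ≤ s ^ 3 * J3 x := by
        have : s ^ 3 * J3 x ≥ s ^ 3 * (-C3) := by gcongr; exact a3.1
        nlinarith
      nlinarith
    have e2 : ∫⁻ x in Dom, ENNReal.ofReal (1 + s * J1 x + s ^ 2 * J2 x + s ^ 3 * J3 x)
        = volume Dom := by
      rw [← e1]
      refine lintegral_congr fun x => ?_
      rw [hdet, abs_of_nonneg (hpos x)]
    have i1 : IntegrableOn (fun x => s * J1 x) Dom := (p1.integrableOn c1).const_mul s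
    have i2 : IntegrableOn (fun x => s ^ 2 * J2 x) Dom := (p2.integrableOn c2).const_mul (s ^ 2)
    have i3 : IntegrableOn (fun x => s ^ 3 * J3 x) Dom := (p3.integrableOn c3).const_mul (s ^ 3)
    have i0 : IntegrableOn (fun _ : V => (1 : ℝ)) Dom := integrableOn_const dom_lt_top.ne
    have i01 : IntegrableOn (fun x => 1 + s * J1 x) Dom := i0.add i1
    have i012 : IntegrableOn (fun x => 1 + s * J1 x + s ^ 2 * J2 x) Dom := i01.add i2
    have i0123 : IntegrableOn (fun x => 1 + s * J1 x + s ^ 2 * J2 x + s ^ 3 * J3 x) Dom :=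
      i012.add i3
    rw [← ofReal_integral_eq_lintegral_ofReal i0123 (Filter.Eventually.of_forall hpos)] at e2
    have e3 : ∫ x in Dom, (1 + s * J1 x + s ^ 2 * J2 x + s ^ 3 * J3 x) = (volume Dom).toReal := by
      rw [← e2, ENNReal.toReal_ofReal (integral_nonneg hpos)]
    have e4 : ∫ x in Dom, (1 + s * J1 x + s ^ 2 * J2 x + s ^ 3 * J3 x)
        = (volume Dom).toReal + s * (∫ x in Dom, J1 x) + s ^ 2 * (∫ x in Dom, J2 x)
          + s ^ 3 * (∫ x in Dom, J3 x) := by
      have f1 : ∫ x in Dom, (1 + s * J1 x + s ^ 2 * J2 x + s ^ 3 * J3 x)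
          = (∫ x in Dom, (1 + s * J1 x + s ^ 2 * J2 x)) + ∫ x in Dom, s ^ 3 * J3 x :=
        integral_add i012 i3
      have f2 : ∫ x in Dom, (1 + s * J1 x + s ^ 2 * J2 x)
          = (∫ x in Dom, (1 + s * J1 x)) + ∫ x in Dom, s ^ 2 * J2 x :=
        integral_add i01 i2
      have f3 : ∫ x in Dom, (1 + s * J1 x) = (∫ x in Dom, (1 : ℝ)) + ∫ x in Dom, s * J1 x :=
        integral_add i0 i1
      rw [f1, f2, f3, integral_const_mul, integral_const_mul, integral_const_mul]
      simp [Measure.real]
    rw [e3] at e4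
    apply mul_left_cancel₀ hs.ne'
    linarith
  have hs0 : 0 < 1 / (2 * K) := by positivity
  have k1 := key (1 / (2 * K)) hs0 le_rfl
  have k2 := key (1 / (2 * K) / 2) (by positivity) (by linarith)
  have k3 := key (1 / (2 * K) / 4) (by positivity) (by linarith)
  generalize hs : 1 / (2 * K) = s at hs0 k1 k2 k3
  generalize ∫ x in Dom, J1 x = I1 at k1 k2 k3 ⊢
  generalize ∫ x in Dom, J2 x = I2 at k1 k2 k3 ⊢
  generalize ∫ x in Dom, J3 x = I3 at k1 k2 k3 ⊢
  have hI3 : s ^ 2 * I3 = 0 := by linarith
  have hI3' : I3 = 0 := by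
    rcases mul_eq_zero.1 hI3 with h | h
    · exact absurd h (by positivity)
    · exact h
  subst hI3'
  have hI2 : s * I2 = 0 := by linarith
  have hI2' : I2 = 0 := by
    rcases mul_eq_zero.1 hI2 with h | h
    · exact absurd h (by positivity)
    · exact h
  subst hI2'
  exact ⟨by linarith, rfl, rfl⟩

/-- The integrals of the second and third invariants of the gradient of a periodic divergence-free
field of class `C¹` over a period cell vanish. -/
theorem integral_inv_eq_zero {v : V → V} (hv : ContDiff ℝ 1 v) (hp : Periodic3 v)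
    (hdiv : ∀ x, divergence v x = 0) :
    ∫ x in Dom, invQ v x = 0 ∧ ∫ x in Dom, invR v x = 0 := by
  obtain ⟨-, h2, h3⟩ := integral_invariants hv hp
  constructor
  · rw [← h2]
    congr 1
    ext1 x
    have : (grad v x).trace = 0 := hdiv x
    rw [this, invQ]; ring
  · have : ∫ x in Dom, invR v x = -∫ x in Dom, (grad v x).det := integral_neg _
    rw [this, h3, neg_zero]

/-- The divergence theorem on `𝕋³`. -/
theorem integral_divergence_eq_zero {v : V → V} (hv : ContDiff ℝ 1 v) (hp : Periodic3 v) :
    ∫ x in Dom, divergence v x = 0 := (integral_invariants hv hp).1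

/-- A continuous nonnegative periodic function with vanishing integral vanishes. -/
lemma eq_zero_of_integral_eq_zero {f : V → ℝ} (hp : Periodic3 f) (hc : Continuous f)
    (h0 : ∀ x, 0 ≤ f x) (hi : ∫ x in Dom, f x = 0) : ∀ x, f x = 0 := by
  have h1 : f =ᵐ[volume.restrict Dom] 0 :=
    (integral_eq_zero_iff_of_nonneg h0 (hp.integrableOn hc)).1 hi
  let U : Set V := {x | f x ≠ 0}
  have hUo : IsOpen U := isOpen_ne_fun hc continuous_const
  have hU0 : volume (U ∩ Dom) = 0 := by
    have := ae_iff.1 h1
    rw [Measure.restrict_apply (by exact hUo.measurableSet)] at this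
    exact this
  have hinv : ∀ g : Lat, g +ᵥ U = U := by
    intro g
    ext x
    rw [Set.mem_vadd_set_iff_neg_vadd_mem]
    have h2 : (-g +ᵥ x : V) = x + ((-g : Lat) : V) := by rw [add_comm]; rfl
    rw [h2]
    show f (x + ((-g : Lat) : V)) ≠ 0 ↔ f x ≠ 0
    rw [hp.lat (-g : Lat).2]
  have hU : volume U = 0 := dom_fd.measure_zero_of_invariant U hinv hU0
  have hU' : U = ∅ := hUo.measure_eq_zero_iff volume |>.1 hU
  intro x
  by_contra hx
  have : x ∈ U := hx
  rw [hU'] at this
  exact this

end Pool.Agent.H708R2.EulerSign
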