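import Pool.Agent.H708R2.EulerSign.Sol
import Pool.Agent.H708R2.EulerSign.Cond
import Pool.Agent.H708R2.EulerSign.Char

/-!
# Proof of the main theorem
-/

open MeasureTheory Set

namespace Pool.Agent.H708R2.EulerSign

theorem main (n : ℕ∞) (hn : 1 ≤ n) (v : V → V) (hv : ContDiff ℝ n v) (hp : Periodic3 v)
    (hdiv : ∀ x, divergence v x = 0) :
    List.TFAE [
      RealSpectrum v,
      KeepsSign (invQ v) ∧ KeepsSign (invR v),
      OneSided v,
      ∀ x, grad v x * grad v x * grad v x = 0,
      ∃ T : ℝ, 0 < T ∧ ∃ (w : ℝ → V → V) (q : ℝ → V → ℝ), IsClassicalSolution (Ico 0 T) w q ∧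
        w 0 = v ∧ ∀ t ∈ Ico 0 T, ∀ x, fderiv ℝ (q t) x = 0] ∧
    (OneSided v →
      ∃ u : ℝ → V → V, ContDiff ℝ n (fun z : ℝ × V => u z.1 z.2) ∧ u 0 = v ∧
        IsClassicalSolution univ u (fun _ _ => 0) ∧
        (∀ t a, u t (a + t • v a) = v a) ∧
        (∀ t a, grad (u t) (a + t • v a) = grad v a - t • (grad v a * grad v a)) ∧
        (∀ m : ℕ, m ≤ n → ∀ T : ℝ, ∃ C : ℝ, ∀ t, |t| ≤ T → sobolevSq m (u t) ≤ C) ∧
        (∀ (T : ℝ) (w : ℝ → V → V) (q : ℝ → V → ℝ), IsClassicalSolution (Ico 0 T) w q →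
          ∀ t₀ ∈ Ico 0 T, w t₀ = v → ∀ t ∈ Ico 0 T, w t = u (t - t₀))) := by
  have hn' : (1 : WithTop ℕ∞) ≤ (n : WithTop ℕ∞) := by exact_mod_cast hn
  have hv1 : ContDiff ℝ 1 v := hv.of_le hn'
  have hz : OneSided v → (∀ x, invQ v x = 0) ∧ (∀ x, invR v x = 0) :=
    inv_eq_zero_of_oneSided hv1 hp hdiv
  have main : OneSided v →
      ∃ u : ℝ → V → V, ContDiff ℝ n (fun z : ℝ × V => u z.1 z.2) ∧ u 0 = v ∧
        IsClassicalSolution univ u (fun _ _ => 0) ∧
        (∀ t a, u t (a + t • v a) = v a) ∧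
        (∀ t a, grad (u t) (a + t • v a) = grad v a - t • (grad v a * grad v a)) ∧
        (∀ m : ℕ, m ≤ n → ∀ T : ℝ, ∃ C : ℝ, ∀ t, |t| ≤ T → sobolevSq m (u t) ≤ C) ∧
        (∀ (T : ℝ) (w : ℝ → V → V) (q : ℝ → V → ℝ), IsClassicalSolution (Ico 0 T) w q →
          ∀ t₀ ∈ Ico 0 T, w t₀ = v → ∀ t ∈ Ico 0 T, w t = u (t - t₀)) := by
    intro h
    obtain ⟨hQ, hR⟩ := hz h
    obtain ⟨u, hu, hu0, htr, hup, hgr, hud, heq⟩ := exists_solution hn' hv hp hdiv hQ hR
    have hu1 : ContDiff ℝ 1 (fun z : ℝ × V => u z.1 z.2) := hu.of_le hn'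
    refine ⟨u, hu, hu0, ?_, htr, hgr, ?_, ?_⟩
    · refine ⟨hu1.contDiffOn, contDiffOn_const, fun t _ => hup t, fun t _ i x => rfl,
        fun t _ x => hud t x, fun t _ x i => ?_⟩
      rw [derivWithin_univ, heq t x i]
      simp
    · intro m hm T
      have hm' : ∀ j ∈ Finset.range (m + 1), (j : WithTop ℕ∞) ≤ (n : WithTop ℕ∞) := by
        intro j hj
        have h1 : j ≤ m := by
          have := Finset.mem_range.1 hj
          omega
        have h2 : (j : ℕ∞) ≤ n := le_trans (by exact_mod_cast h1) hm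
        exact_mod_cast h2
      have hK : IsCompact (Icc (-T) T ×ˢ Icc (fun _ : Fin 3 => -Real.pi) (fun _ => Real.pi)) :=
        isCompact_Icc.prod isCompact_Icc
      have hb : ∀ j ∈ Finset.range (m + 1), ∃ C : ℝ, ∀ z ∈
          (Icc (-T) T ×ˢ Icc (fun _ : Fin 3 => -Real.pi) (fun _ => Real.pi)),
          ‖iteratedFDeriv ℝ j (fun z : ℝ × V => u z.1 z.2) z‖ ≤ C := by
        intro j hj
        exact hK.exists_bound_of_continuousOn
          (hu.continuous_iteratedFDeriv (hm' j hj)).continuousOn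
      choose! C hC using hb
      refine ⟨∑ j ∈ Finset.range (m + 1), (C j) ^ 2 *
        (volume (Icc (fun _ : Fin 3 => -Real.pi) (fun _ => Real.pi))).toReal, fun t ht => ?_⟩
      refine Finset.sum_le_sum fun j hj => ?_
      have hfin : volume (Icc (fun _ : Fin 3 => -Real.pi) (fun _ => Real.pi)) < ⊤ :=
        isCompact_Icc.measure_lt_top
      have h1 : ‖∫ x in Icc (fun _ : Fin 3 => -Real.pi) (fun _ => Real.pi),
          ‖iteratedFDeriv ℝ j (u t) x‖ ^ 2‖ ≤ (C j) ^ 2 *
          (volume.real (Icc (fun _ : Fin 3 => -Real.pi) (fun _ => Real.pi))) := by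
        refine norm_setIntegral_le_of_norm_le_const hfin ?_
        intro x hx
        rw [Real.norm_eq_abs, abs_of_nonneg (by positivity)]
        have h2 := iteratedFDeriv_slice_le hu (hm' j hj) t x
        have h3 := hC j hj (t, x) ⟨abs_le.1 ht, hx⟩
        gcongr
        exact h2.trans h3
      exact (le_abs_self _).trans h1
    · intro T w q hw t₀ ht₀ hwt
      -- the time translate
      have hcu : ContDiff ℝ 1 (fun z : ℝ × V => (fun t => u (t - t₀)) z.1 z.2) :=
        hu1.comp ((contDiff_fst.sub contDiff_const).prodMk contDiff_snd)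
      -- bound of the gradient
      have hbd : ∃ K : ℝ, ∀ t ∈ Ico 0 T, ∀ x i j, |grad (u (t - t₀)) x i j| ≤ K := by
        obtain ⟨C, hC0, hC⟩ := (hp.grad (v := v)).bounded (E := Fin 3 → Fin 3 → ℝ)
          (continuous_grad hv1)
        have hCe : ∀ x i j, |grad v x i j| ≤ C := by
          intro x i j
          have h1 := norm_le_pi_norm (grad v x i) j
          have h2 := norm_le_pi_norm (grad v x : Fin 3 → Fin 3 → ℝ) i
          exact h1.trans (h2.trans (hC x))
        refine ⟨C + T * (3 * (C * C)), fun t ht x i j => ?_⟩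
        have hs : ∃ a, a + (t - t₀) • v a = x := by
          have hnil : ∀ x, fderiv ℝ v x * fderiv ℝ v x * fderiv ℝ v x = 0 := fun x =>
            fderiv_cube (cube_eq_zero_of_inv (hdiv x) (hQ x) (hR x))
          exact (bij_all hv1 hp hnil (t - t₀)).surjective x
        obtain ⟨a, rfl⟩ := hs
        rw [hgr]
        have h1 : |(grad v a * grad v a) i j| ≤ 3 * (C * C) := by
          rw [Matrix.mul_apply, Fin.sum_univ_three]
          have e : ∀ k, |grad v a i k * grad v a k j| ≤ C * C := by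
            intro k
            rw [abs_mul]
            gcongr <;> exact hCe _ _ _
          calc _ ≤ |grad v a i 0 * grad v a 0 j| + |grad v a i 1 * grad v a 1 j|
                + |grad v a i 2 * grad v a 2 j| := abs_add_three _ _ _
            _ ≤ C * C + C * C + C * C := by gcongr <;> exact e _
            _ = 3 * (C * C) := by ring
        have h2 : |t - t₀| ≤ T := by
          rw [abs_le]
          constructor
          · linarith [ht.1, ht.2, ht₀.1, ht₀.2]
          · linarith [ht.1, ht.2, ht₀.1, ht₀.2]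
        rw [Matrix.sub_apply, Matrix.smul_apply, smul_eq_mul]
        calc |grad v a i j - (t - t₀) * (grad v a * grad v a) i j|
            ≤ |grad v a i j| + |(t - t₀) * (grad v a * grad v a) i j| := abs_sub _ _
          _ ≤ C + T * (3 * (C * C)) := by
            rw [abs_mul]
            gcongr
            · exact hCe _ _ _
            · exact (abs_nonneg _).trans h2
      obtain ⟨K, hK⟩ := hbd
      refine unique (u := fun t => u (t - t₀)) hw hcu (fun t => hup _) (fun t x => hud _ x) ?_ hK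
        ht₀ ?_
      · intro t x i
        have h1 : deriv (fun s => u (s - t₀) x i) t = deriv (fun s => u s x i) (t - t₀) :=
          deriv_comp_sub_const (f := fun s => u s x i) t₀ t
        rw [h1]
        exact heq (t - t₀) x i
      · simp only [sub_self]
        rw [hwt, hu0]
  refine ⟨?_, main⟩
  tfae_have 1 → 3 := oneSided_of_realSpectrum hdiv
  tfae_have 2 → 3 := fun h => oneSided_of_keepsSign h.1 h.2
  tfae_have 3 → 4 := fun h x => cube_eq_zero_of_inv (hdiv x) ((hz h).1 x) ((hz h).2 x)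
  tfae_have 3 → 2 := fun h => ⟨Or.inl fun x => ((hz h).1 x).ge, Or.inl fun x => ((hz h).2 x).ge⟩
  tfae_have 4 → 1 := by
    intro h x
    have h1 : (grad v x) ^ 3 = 0 := by rw [pow_succ, pow_two, h x]
    have h2 : IsNilpotent (grad v x) := ⟨3, h1⟩
    have h3 := (Matrix.isNilpotent_charpoly_sub_pow_of_isNilpotent h2).eq_zero
    rw [sub_eq_zero] at h3
    rw [h3]
    exact Polynomial.Splits.X_pow _
  tfae_have 3 → 5 := by
    intro h
    obtain ⟨u, -, hu0, hcl, -⟩ := main h
    refine ⟨1, one_pos, u, fun _ _ => 0, ?_, hu0, fun t _ x => by simp⟩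
    refine ⟨hcl.contDiffOn_u.mono (prod_mono (subset_univ _) subset_rfl),
      contDiffOn_const, fun t _ => hcl.periodic_u t (mem_univ t), fun t _ i x => rfl,
      fun t _ => hcl.div_free t (mem_univ t), fun t ht x i => ?_⟩
    have h1 := hcl.momentum t (mem_univ t) x i
    rw [derivWithin_univ] at h1
    have hd : DifferentiableAt ℝ (fun s => u s x i) t := by
      have hU : ContDiff ℝ 1 (fun z : ℝ × V => u z.1 z.2) := by
        rw [← contDiffOn_univ, ← univ_prod_univ]; exact hcl.contDiffOn_u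
      have h2 : DifferentiableAt ℝ (fun s => u s x) t := by
        have e := (hU.differentiable one_ne_zero (t, x)).hasFDerivAt.comp_hasDerivAt t
          ((hasDerivAt_id t).prodMk (hasDerivAt_const t x))
        exact e.differentiableAt
      exact (hasDerivAt_pi.1 h2.hasDerivAt i).differentiableAt
    rw [hd.derivWithin (uniqueDiffOn_Ico 0 1 t ht)]
    exact h1
  tfae_have 5 → 3 := by
    rintro ⟨T, hT, w, q, hw, hw0, hq⟩
    have h := fun a => inv_eq_zero_of_pressureless hT hv1 hdiv hw hq hw0 a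
    exact oneSided_of_keepsSign (Or.inl fun x => (h x).1.ge) (Or.inl fun x => (h x).2.ge)
  tfae_finish

end Pool.Agent.H708R2.EulerSign
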