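import Pool.Agent.H708R2.EulerSign.Flow

/-!
# The global pressureless solution
-/

open MeasureTheory Set
open scoped ENNReal NNReal Topology Pointwise

namespace Pool.Agent.H708R2.EulerSign

variable {v : V → V}

lemma iteratedFDeriv_slice_le {n : WithTop ℕ∞} {U : ℝ × V → V} (hU : ContDiff ℝ n U) {j : ℕ}
    (hj : (j : WithTop ℕ∞) ≤ n) (t : ℝ) (x : V) :
    ‖iteratedFDeriv ℝ j (fun y => U (t, y)) x‖ ≤ ‖iteratedFDeriv ℝ j U (t, x)‖ := by
  let g : V →L[ℝ] ℝ × V := ContinuousLinearMap.inr ℝ ℝ V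
  have h1 : (fun y => U (t, y)) = (fun z => U ((t, 0) + z)) ∘ g := by
    ext1 y
    simp [g]
  have hU' : ContDiff ℝ n (fun z => U ((t, 0) + z)) := hU.comp (contDiff_const.add contDiff_id)
  rw [h1, g.iteratedFDeriv_comp_right hU' x hj]
  have h2 : iteratedFDeriv ℝ j (fun z => U ((t, 0) + z)) (g x) = iteratedFDeriv ℝ j U (t, x) := by
    rw [iteratedFDeriv_comp_add_left]
    simp [g]
  rw [h2]
  refine (ContinuousMultilinearMap.norm_compContinuousLinearMap_le _ _).trans ?_
  have hg : ‖g‖ ≤ 1 := ContinuousLinearMap.norm_inr_le_one ℝ ℝ V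
  calc ‖iteratedFDeriv ℝ j U (t, x)‖ * ∏ _i : Fin j, ‖g‖
      ≤ ‖iteratedFDeriv ℝ j U (t, x)‖ * ∏ _i : Fin j, (1 : ℝ) := by gcongr
    _ = ‖iteratedFDeriv ℝ j U (t, x)‖ := by simp

/-- The divergence of the velocity along the flow. -/
lemma grad_of_fderiv {w : V → V} {x a : V} {t : ℝ}
    (h : fderiv ℝ w x = fderiv ℝ v a - t • (fderiv ℝ v a * fderiv ℝ v a)) :
    grad w x = grad v a - t • (grad v a * grad v a) := by
  rw [← toMatrix_fderiv, ← toMatrix_fderiv, h, ← LinearMap.toMatrix'_mul]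
  ext i j
  simp [LinearMap.toMatrix'_apply]

/-- For a periodic, divergence-free field `v` whose invariants `Q` and `R` vanish there is a global
pressureless solution with initial velocity `v`. -/
theorem exists_solution {n : WithTop ℕ∞} (hn : 1 ≤ n) (hv : ContDiff ℝ n v) (hp : Periodic3 v)
    (hdiv : ∀ x, divergence v x = 0) (hQ : ∀ x, invQ v x = 0) (hR : ∀ x, invR v x = 0) :
    ∃ u : ℝ → V → V, ContDiff ℝ n (fun z : ℝ × V => u z.1 z.2) ∧ u 0 = v ∧
      (∀ t a, u t (a + t • v a) = v a) ∧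
      (∀ t, Periodic3 (u t)) ∧
      (∀ t a, grad (u t) (a + t • v a) = grad v a - t • (grad v a * grad v a)) ∧
      (∀ t x, divergence (u t) x = 0) ∧
      (∀ t x i, deriv (fun s => u s x i) t
        + ∑ j, u t x j * fderiv ℝ (u t) x (Pi.single j 1) i = 0) := by
  have hv1 : ContDiff ℝ 1 v := hv.of_le hn
  have hdiff : Differentiable ℝ v := hv1.differentiable one_ne_zero
  have hnil : ∀ x, fderiv ℝ v x * fderiv ℝ v x * fderiv ℝ v x = 0 := fun x =>
    fderiv_cube (cube_eq_zero_of_inv (hdiv x) (hQ x) (hR x))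
  obtain ⟨G, hG, hG1, hG2⟩ := exists_inverse hn hv hp hnil
  let u : ℝ → V → V := fun t x => v (G (t, x))
  have hU : ContDiff ℝ n (fun z : ℝ × V => u z.1 z.2) := hv.comp hG
  have hU1 : ContDiff ℝ 1 (fun z : ℝ × V => u z.1 z.2) := hU.of_le hn
  have hUd : Differentiable ℝ (fun z : ℝ × V => u z.1 z.2) := hU1.differentiable one_ne_zero
  have htr : ∀ t a, u t (a + t • v a) = v a := by
    intro t a
    show v (G (t, a + t • v a)) = v a
    rw [hG1]
  -- slices
  have hslice : ∀ t x, HasFDerivAt (u t)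
      (fderiv ℝ (fun z : ℝ × V => u z.1 z.2) (t, x) ∘L ContinuousLinearMap.inr ℝ ℝ V) x := by
    intro t x
    have h1 : HasFDerivAt (fun y : V => ((t, y) : ℝ × V)) (ContinuousLinearMap.inr ℝ ℝ V) x :=
      hasFDerivAt_prodMk_right t x
    exact (hUd (t, x)).hasFDerivAt.comp x h1
  have hslicet : ∀ t x, HasFDerivAt (fun s => u s x)
      (fderiv ℝ (fun z : ℝ × V => u z.1 z.2) (t, x) ∘L ContinuousLinearMap.inl ℝ ℝ V) t := by
    intro t x
    have h1 : HasFDerivAt (fun s : ℝ => ((s, x) : ℝ × V)) (ContinuousLinearMap.inl ℝ ℝ V) t :=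
      hasFDerivAt_prodMk_left t x
    exact (hUd (t, x)).hasFDerivAt.comp t h1
  -- gradient
  have hfd : ∀ t a, fderiv ℝ (u t) (a + t • v a)
      = fderiv ℝ v a - t • (fderiv ℝ v a * fderiv ℝ v a) := by
    intro t a
    have h1 : HasFDerivAt (fun x => x + t • v x) (dF v t a) a := hasFDerivAt_F hdiff t a
    have h2 : HasFDerivAt (u t) (fderiv ℝ (u t) (a + t • v a)) (a + t • v a) :=
      (hslice t _).differentiableAt.hasFDerivAt
    have h3 : HasFDerivAt ((u t) ∘ (fun x => x + t • v x))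
        (fderiv ℝ (u t) (a + t • v a) ∘L dF v t a) a := HasFDerivAt.comp a h2 h1
    have h4 : (u t) ∘ (fun x => x + t • v x) = v := by
      ext1 x; exact htr t x
    rw [h4] at h3
    have h5 : fderiv ℝ (u t) (a + t • v a) * dF v t a = fderiv ℝ v a :=
      h3.unique (hdiff a).hasFDerivAt
    rw [← fderiv_mul_iF (hnil a) t, ← h5, mul_assoc, dF_mul_iF (hnil a), mul_one]
  have hgrad : ∀ t a, grad (u t) (a + t • v a) = grad v a - t • (grad v a * grad v a) :=
    fun t a => grad_of_fderiv (hfd t a)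
  have hsurj : ∀ t x, ∃ a, a + t • v a = x := fun t x => ⟨G (t, x), hG2 t x⟩
  refine ⟨u, hU, ?_, htr, ?_, hgrad, ?_, ?_⟩
  · ext1 y
    have := hG2 0 y
    rw [zero_smul, add_zero] at this
    show v (G (0, y)) = v y
    rw [this]
  · intro t i x
    show v (G (t, x + Pi.single i (2 * Real.pi))) = v (G (t, x))
    have h1 := hG2 t x
    have h2 : G (t, (G (t, x) + Pi.single i (2 * Real.pi))
        + t • v (G (t, x) + Pi.single i (2 * Real.pi))) = G (t, x) + Pi.single i (2 * Real.pi) :=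
      hG1 t _
    have h3 : (G (t, x) + Pi.single i (2 * Real.pi))
        + t • v (G (t, x) + Pi.single i (2 * Real.pi)) = x + Pi.single i (2 * Real.pi) := by
      rw [hp]
      nth_rw 3 [← h1]
      abel
    rw [h3] at h2
    rw [h2, hp]
  · intro t x
    obtain ⟨a, rfl⟩ := hsurj t x
    unfold divergence
    rw [hgrad]
    have h1 : (grad v a).trace = 0 := hdiv a
    have h2 : (grad v a * grad v a).trace = 0 := by
      have := hQ a
      unfold invQ at this; linarith
    rw [Matrix.trace_sub, Matrix.trace_smul, h1, h2]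
    simp
  · intro t x i
    obtain ⟨a, rfl⟩ := hsurj t x
    set x := a + t • v a with hx
    -- differentiate along the particle path
    have h1 : HasDerivAt (fun s : ℝ => ((s, a + s • v a) : ℝ × V)) (1, v a) t := by
      have e1 : HasDerivAt (fun s : ℝ => s) 1 t := hasDerivAt_id t
      have e2 : HasDerivAt (fun s : ℝ => a + s • v a) ((1 : ℝ) • v a) t :=
        (e1.smul_const (v a)).const_add a
      rw [one_smul] at e2
      exact e1.prodMk e2
    have h2' : HasFDerivAt (fun z : ℝ × V => u z.1 z.2)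
        (fderiv ℝ (fun z : ℝ × V => u z.1 z.2) (t, x)) (t, a + t • v a) :=
      (hUd (t, x)).hasFDerivAt
    have h2 : HasDerivAt ((fun z : ℝ × V => u z.1 z.2) ∘ (fun s : ℝ => ((s, a + s • v a) : ℝ × V)))
        (fderiv ℝ (fun z : ℝ × V => u z.1 z.2) (t, x) (1, v a)) t :=
      h2'.comp_hasDerivAt t h1
    have h3 : (fun z : ℝ × V => u z.1 z.2) ∘ (fun s : ℝ => ((s, a + s • v a) : ℝ × V))
        = fun _ => v a := by
      ext1 s; exact htr s a
    rw [h3] at h2
    have h4 : fderiv ℝ (fun z : ℝ × V => u z.1 z.2) (t, x) (1, v a) = 0 :=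
      h2.unique (hasDerivAt_const t (v a))
    have h5 : ((1, v a) : ℝ × V) = ContinuousLinearMap.inl ℝ ℝ V 1
        + ContinuousLinearMap.inr ℝ ℝ V (v a) := by
      simp
    rw [h5, map_add] at h4
    have h6 : fderiv ℝ (u t) x (v a)
        = fderiv ℝ (fun z : ℝ × V => u z.1 z.2) (t, x) (ContinuousLinearMap.inr ℝ ℝ V (v a)) := by
      rw [(hslice t x).fderiv]; rfl
    have h7 : HasDerivAt (fun s => u s x)
        (fderiv ℝ (fun z : ℝ × V => u z.1 z.2) (t, x) (ContinuousLinearMap.inl ℝ ℝ V 1)) t :=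
      (hslicet t x).hasDerivAt
    have h8 : HasDerivAt (fun s => u s x i)
        (fderiv ℝ (fun z : ℝ × V => u z.1 z.2) (t, x) (ContinuousLinearMap.inl ℝ ℝ V 1) i) t :=
      hasDerivAt_pi.1 h7 i
    rw [h8.deriv]
    have h9 : u t x = v a := htr t a
    have h10 : ∑ j, u t x j * fderiv ℝ (u t) x (Pi.single j 1) i = fderiv ℝ (u t) x (v a) i := by
      rw [h9]
      have : v a = ∑ j, v a j • (Pi.single j (1 : ℝ) : V) := by
        ext k
        simp [Finset.sum_apply, Pi.single_apply]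
      conv_rhs => rw [this, map_sum]
      simp [Finset.sum_apply]
    rw [h10, h6]
    have := congrArg (fun y : V => y i) h4
    simpa using this

end Pool.Agent.H708R2.EulerSign
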